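import Mathlib

/-!
# Toeplitz subshifts, ordered Bratteli diagrams, topological rank

Definitions used for the question whether Toeplitz subshifts of topological rank `K` are strong
Toeplitz subshifts of rank `h K` for some function `h`.
-/

namespace Pool.Agent.T2H77.Toe

/-- An ordered Bratteli diagram. `V n` is the (finite) set of vertices of level `n`, and `V 0` is a
single vertex. The edges between level `n` and level `n + 1` that end at the vertex `v` of level
`n + 1` are numbered `0, ..., deg n v - 1`; this numbering is their linear order. `src n v i` is the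
starting vertex (of level `n`) of the edge number `i` that ends at `v`. Every vertex of a level
`n + 1` is the end of at least one edge, and every vertex is the start of at least one edge. -/
structure OBD where
  V : ℕ → Type
  finV : ∀ n, Finite (V n)
  topV : Nonempty (V 0) ∧ Subsingleton (V 0)
  deg : ∀ n, V (n + 1) → ℕ
  deg_pos : ∀ n v, 0 < deg n v
  src : ∀ n (v : V (n + 1)), Fin (deg n v) → V n
  out : ∀ n (w : V n), ∃ v i, src n v i = w

namespace OBD

/-- The edges between level `n` and level `n + 1`: a vertex `tgt` of level `n + 1` (the end of the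
edge) together with a number `idx` smaller than `deg n tgt`. -/
structure E (B : OBD) (n : ℕ) : Type where
  tgt : B.V (n + 1)
  idx : Fin (B.deg n tgt)

/-- The finite set of edges between two levels carries the discrete topology. -/
instance (B : OBD) (n : ℕ) : TopologicalSpace (B.E n) := ⊥

instance (B : OBD) (n : ℕ) : DiscreteTopology (B.E n) := ⟨rfl⟩

/-- The infinite paths that start at the vertex of level `0`: the edge `ξ (n + 1)` starts where the
edge `ξ n` ends. They carry the topology induced from the product of the discrete topologies. -/
abbrev Path (B : OBD) : Type :=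
  {ξ : ∀ n, B.E n // ∀ n, B.src (n + 1) (ξ (n + 1)).tgt (ξ (n + 1)).idx = (ξ n).tgt}

/-- The edge `e` is the last one in the order of the edges with the same end. -/
def EdgeMax {B : OBD} {n : ℕ} (e : B.E n) : Prop := e.idx.val + 1 = B.deg n e.tgt

/-- The edge `e` is the first one in the order of the edges with the same end. -/
def EdgeMin {B : OBD} {n : ℕ} (e : B.E n) : Prop := e.idx.val = 0

/-- A properly ordered diagram: there is exactly one infinite path all of whose edges are maximal
and exactly one all of whose edges are minimal. -/
def ProperlyOrdered (B : OBD) : Prop :=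
  (∃! ξ : B.Path, ∀ n, EdgeMax (ξ.1 n)) ∧ (∃! ξ : B.Path, ∀ n, EdgeMin (ξ.1 n))

/-- `η` is the image of `ξ` under the Vershik map of a properly ordered diagram. If all edges of `ξ`
are maximal then all edges of `η` are minimal. Otherwise let `n` be the first index for which `ξ n`
is not maximal; then the edge `η n` is the successor of `ξ n` among the edges with the same end, the
edges `η m` with `m < n` are minimal, and `η m = ξ m` for all `m > n`. -/
def Succ (B : OBD) (ξ η : B.Path) : Prop :=
  ((∀ n, EdgeMax (ξ.1 n)) → ∀ n, EdgeMin (η.1 n)) ∧
  ∀ n, (∀ m < n, EdgeMax (ξ.1 m)) → ¬ EdgeMax (ξ.1 n) →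
    (∀ m < n, EdgeMin (η.1 m)) ∧ (η.1 n).tgt = (ξ.1 n).tgt ∧ (η.1 n).idx.val = (ξ.1 n).idx.val + 1 ∧
      ∀ m > n, η.1 m = ξ.1 m

/-- There is a (finite) path from the vertex `w` of level `n` to the vertex `v` of level `n + k`. -/
def Reach (B : OBD) (n : ℕ) : ∀ k, B.V n → B.V (n + k) → Prop
  | 0, w, v => w = v
  | k + 1, w, v => ∃ i : Fin (B.deg (n + k) v), Reach B n k w (B.src (n + k) v i)

/-- A simple diagram: for every level `n` there is a level `n + k > n` such that each vertex of
level `n` is connected to each vertex of level `n + k` by a path. -/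
def Simple (B : OBD) : Prop := ∀ n, ∃ k > 0, ∀ w v, B.Reach n k w v

/-- The number of paths from the vertex of level `0` to the vertex `v` of level `n`. -/
def paths (B : OBD) : ∀ n, B.V n → ℕ
  | 0, _ => 1
  | n + 1, v => ∑ i : Fin (B.deg n v), paths B n (B.src n v i)

/-- The equal path number property: for every level `n ≥ 1` all vertices of this level are reached
by the same number of paths from the vertex of level `0`. -/
def EqualPathNumber (B : OBD) : Prop :=
  ∀ n, ∀ v w : B.V (n + 1), B.paths (n + 1) v = B.paths (n + 1) w

end OBD

/-- The left shift on two-sided sequences. -/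
def shift {A : Type} (x : ℤ → A) : ℤ → A := fun i => x (i + 1)

/-- The `k`-th power, `k` an integer, of the left shift. -/
def shiftZ {A : Type} (k : ℤ) (x : ℤ → A) : ℤ → A := fun i => x (i + k)

/-- A Toeplitz sequence: it is not periodic, and every coordinate is repeated periodically. -/
def IsToeplitz {A : Type} (x : ℤ → A) : Prop :=
  (¬ ∃ p : ℤ, 1 ≤ p ∧ ∀ i, x (i + p) = x i) ∧ ∀ n : ℤ, ∃ p : ℤ, 1 ≤ p ∧ ∀ k : ℤ, x (n + k * p) = x n

/-- A Toeplitz subshift: the closure of the (two-sided) orbit of a Toeplitz sequence. -/
def IsToeplitzSubshift {A : Type} [TopologicalSpace A] (X : Set (ℤ → A)) : Prop :=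
  ∃ x, IsToeplitz x ∧ X = closure (Set.range fun k : ℤ => shiftZ k x)

/-- The subshift `X` with the left shift is conjugate to the Bratteli-Vershik system of `B`: there
is a homeomorphism from `X` onto the space of infinite paths of `B` that carries the shift to the
Vershik map. -/
def Conj {A : Type} [TopologicalSpace A] (X : Set (ℤ → A)) (B : OBD) : Prop :=
  ∃ φ : X ≃ₜ B.Path, ∀ x y : X, y.1 = shift x.1 → B.Succ (φ x) (φ y)

/-- `X` has topological rank `K`: `K` is the least number such that `X` is conjugate to the
Bratteli-Vershik system of a simple, properly ordered Bratteli diagram with at most `K` vertices on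
each level `n ≥ 1`. -/
def HasTopRank {A : Type} [TopologicalSpace A] (X : Set (ℤ → A)) (K : ℕ) : Prop :=
  IsLeast {K : ℕ | ∃ B : OBD, B.Simple ∧ B.ProperlyOrdered ∧
    (∀ n, Nat.card (B.V (n + 1)) ≤ K) ∧ Conj X B} K

/-- `X` is a strong Toeplitz subshift of rank `K`: it is conjugate to the Bratteli-Vershik system of
a simple, properly ordered Bratteli diagram that has the equal path number property and has exactly
`K` vertices on each level `n ≥ 1`. -/
def StrongToeplitz {A : Type} [TopologicalSpace A] (X : Set (ℤ → A)) (K : ℕ) : Prop :=
  ∃ B : OBD, B.Simple ∧ B.ProperlyOrdered ∧ B.EqualPathNumber ∧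
    (∀ n, Nat.card (B.V (n + 1)) = K) ∧ Conj X B

end Pool.Agent.T2H77.Toe
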