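import Pool.Agent.T2H77.Toe.Upper

/-!
# Desubstitution of two-sided sequences
-/

namespace Pool.Agent.T2H77.Toe

/-- The word `l` occurs in `y` at the position `p`. -/
def Occ {A : Type} (y : ℤ → A) (p : ℤ) (l : List A) : Prop :=
  ∀ i : ℕ, ∀ a, l[i]? = some a → y (p + i) = a

theorem Occ.nil {A : Type} (y : ℤ → A) (p : ℤ) : Occ y p [] := by
  intro i a h
  simp at h

theorem occ_append {A : Type} {y : ℤ → A} {p : ℤ} {l m : List A} :
    Occ y p (l ++ m) ↔ Occ y p l ∧ Occ y (p + l.length) m := by
  constructor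
  · intro h
    refine ⟨?_, ?_⟩
    · intro i a hi
      apply h i a
      obtain ⟨hlt, -⟩ := List.getElem?_eq_some_iff.1 hi
      rw [List.getElem?_append_left hlt]
      exact hi
    · intro i a hi
      have := h (l.length + i) a (by
        rw [List.getElem?_append_right (by omega)]
        rw [show l.length + i - l.length = i by omega]
        exact hi)
      rw [← this]
      push_cast
      congr 1
      ring
  · rintro ⟨h1, h2⟩ i a hi
    rcases Nat.lt_or_ge i l.length with hlt | hge
    · rw [List.getElem?_append_left hlt] at hi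
      exact h1 i a hi
    · rw [List.getElem?_append_right hge] at hi
      have := h2 _ _ hi
      rw [← this]
      congr 1
      push_cast [Nat.cast_sub hge]
      ring

theorem occ_cons {A : Type} {y : ℤ → A} {p : ℤ} {a : A} {m : List A} :
    Occ y p (a :: m) ↔ y p = a ∧ Occ y (p + 1) m := by
  have h1 : a :: m = [a] ++ m := rfl
  rw [h1, occ_append]
  constructor
  · rintro ⟨h1, h2⟩
    refine ⟨?_, ?_⟩
    · have := h1 0 a (by simp)
      simpa using this
    · simpa using h2
  · rintro ⟨h1, h2⟩
    refine ⟨?_, ?_⟩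
    · intro i b hi
      have hi0 : i = 0 := by
        by_contra hne
        have : ([a] : List A)[i]? = none := by
          rw [List.getElem?_eq_none_iff]
          simp only [List.length_singleton]
          omega
        rw [this] at hi
        cases hi
      subst hi0
      simp only [List.getElem?_cons_zero, Option.some.injEq] at hi
      subst hi
      simpa using h1
    · simpa using h2

theorem Occ.shift {A : Type} {y : ℤ → A} {p : ℤ} {l : List A} (h : Occ y p l) (k : ℤ) :
    Occ (shiftZ k y) (p - k) l := by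
  intro i a hi
  have := h i a hi
  rw [← this]
  unfold shiftZ
  congr 1
  ring

/-- `y` is obtained from `y'` by the substitution `τ`; `c j` is the position where the word that
replaces the letter number `j` of `y'` starts. -/
structure Cut {A : Type} (τ : A → List A) (y y' : ℤ → A) (c : ℤ → ℤ) : Prop where
  step : ∀ j, c (j + 1) = c j + (τ (y' j)).length
  occ : ∀ j, Occ y (c j) (τ (y' j))

namespace Cut

variable {A : Type} {τ τ' : A → List A} {y y' y'' : ℤ → A} {c c' : ℤ → ℤ}

theorem flat (h : Cut τ y y' c) {l : List A} : ∀ {p : ℤ}, Occ y' p l →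
    Occ y (c p) (l.flatMap τ) ∧ c (p + l.length) = c p + (l.flatMap τ).length := by
  induction l with
  | nil =>
    intro p _
    simp [Occ.nil]
  | cons a l ih =>
    intro p hp
    rw [occ_cons] at hp
    obtain ⟨h1, h2⟩ := hp
    obtain ⟨h3, h4⟩ := ih h2
    rw [List.flatMap_cons, occ_append]
    have h5 := h.step p
    have h6 := h.occ p
    rw [h1] at h5 h6
    rw [h5] at h3 h4
    refine ⟨⟨h6, h3⟩, ?_⟩
    rw [List.length_cons, List.length_append]
    push_cast
    rw [show p + ((l.length : ℤ) + 1) = p + 1 + l.length by ring, h4]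
    ring

theorem comp (h : Cut τ y y' c) (h' : Cut τ' y' y'' c') :
    Cut (fun a => (τ' a).flatMap τ) y y'' (fun j => c (c' j)) := by
  constructor
  · intro j
    have := (h.flat (h'.occ j)).2
    rw [← h'.step j] at this
    exact this
  · intro j
    exact (h.flat (h'.occ j)).1

theorem shift (h : Cut τ y y' c) (k j : ℤ) :
    Cut τ (shiftZ k y) (shiftZ j y') (fun i => c (i + j) - k) := by
  constructor
  · intro i
    change c (i + 1 + j) - k = c (i + j) - k + (τ (y' (i + j))).length
    rw [show i + 1 + j = i + j + 1 by ring, h.step]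
    ring
  · intro i
    exact (h.occ (i + j)).shift k

theorem lt_succ (h : Cut τ y y' c) (hτ : ∀ a, 0 < (τ a).length) (j : ℤ) : c j < c (j + 1) := by
  rw [h.step]
  have := hτ (y' j)
  omega

theorem strictMono (h : Cut τ y y' c) (hτ : ∀ a, 0 < (τ a).length) : StrictMono c :=
  strictMono_int_of_lt_succ (h.lt_succ hτ)

end Cut

/-- Every integer lies between two consecutive values of a strictly increasing function. -/
theorem exists_floor {c : ℤ → ℤ} (hc : StrictMono c) (p : ℤ) : ∃ j, c j ≤ p ∧ p < c (j + 1) := by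
  have key : ∀ k : ℤ, ∃ j, c j ≤ c 0 + k ∧ c 0 + k < c (j + 1) := by
    intro k
    induction k using Int.induction_on with
    | zero =>
      refine ⟨0, by simp, ?_⟩
      have := hc (show (0 : ℤ) < 0 + 1 by norm_num)
      simpa using this
    | succ k ih =>
      obtain ⟨j, h1, h2⟩ := ih
      rcases lt_or_ge (c 0 + (k + 1)) (c (j + 1)) with h | h
      · exact ⟨j, by omega, h⟩
      · refine ⟨j + 1, h, ?_⟩
        have := hc (show j + 1 < j + 1 + 1 by omega)
        omega
    | pred k ih =>
      obtain ⟨j, h1, h2⟩ := ih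
      rcases le_or_gt (c j) (c 0 + (-(k : ℤ) - 1)) with h | h
      · exact ⟨j, h, by omega⟩
      · refine ⟨j - 1, ?_, by simpa using h⟩
        have := hc (show j - 1 < j by omega)
        omega
  obtain ⟨j, hj⟩ := key (p - c 0)
  refine ⟨j, ?_⟩
  rw [show c 0 + (p - c 0) = p by ring] at hj
  exact hj

theorem floor_unique {c : ℤ → ℤ} (hc : StrictMono c) {p j j' : ℤ} (h1 : c j ≤ p)
    (h2 : p < c (j + 1)) (h3 : c j' ≤ p) (h4 : p < c (j' + 1)) : j = j' := by
  have h5 : c j < c (j' + 1) := by omega
  have h6 : c j' < c (j + 1) := by omega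
  rw [hc.lt_iff_lt] at h5 h6
  omega

/-- Two strictly increasing functions on the integers that have the same value at `0` and the same
range are equal. -/
theorem eq_of_range {c d : ℤ → ℤ} (hc : StrictMono c) (hd : StrictMono d) (h0 : c 0 = d 0)
    (h1 : ∀ j, ∃ i, c j = d i) (h2 : ∀ j, ∃ i, d j = c i) : c = d := by
  funext j
  induction j using Int.induction_on with
  | zero => exact h0
  | succ j ih =>
    obtain ⟨i, hi⟩ := h1 (j + 1)
    obtain ⟨i', hi'⟩ := h2 (j + 1)
    have a1 : c j < c (j + 1) := hc (by omega)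
    have a2 : d j < d (j + 1) := hd (by omega)
    have b1 : (j : ℤ) < i := by
      rw [← hd.lt_iff_lt]; omega
    have b2 : (j : ℤ) < i' := by
      rw [← hc.lt_iff_lt]; omega
    have c1 : d (j + 1) ≤ d i := hd.monotone (by omega)
    have c2 : c (j + 1) ≤ c i' := hc.monotone (by omega)
    omega
  | pred j ih =>
    obtain ⟨i, hi⟩ := h1 (-j - 1)
    obtain ⟨i', hi'⟩ := h2 (-j - 1)
    have a1 : c (-j - 1) < c (-j) := hc (by omega)
    have a2 : d (-j - 1) < d (-j) := hd (by omega)
    have b1 : i < -(j : ℤ) := by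
      rw [← hd.lt_iff_lt]; omega
    have b2 : i' < -(j : ℤ) := by
      rw [← hc.lt_iff_lt]; omega
    have c1 : d i ≤ d (-j - 1) := hd.monotone (by omega)
    have c2 : c i' ≤ c (-j - 1) := hc.monotone (by omega)
    omega

/-- Partial sums, in both directions, of a two-sided sequence of natural numbers. -/
def cum (L : ℤ → ℕ) (j : ℤ) : ℤ :=
  (∑ i ∈ Finset.range j.toNat, (L i : ℤ)) - ∑ i ∈ Finset.range (-j).toNat, (L (-(i : ℤ) - 1) : ℤ)

theorem cum_zero (L : ℤ → ℕ) : cum L 0 = 0 := by simp [cum]

theorem cum_succ (L : ℤ → ℕ) (j : ℤ) : cum L (j + 1) = cum L j + L j := by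
  unfold cum
  rcases le_or_gt 0 j with h | h
  · obtain ⟨n, rfl⟩ := Int.eq_ofNat_of_zero_le h
    rw [show ((n : ℤ) + 1).toNat = n + 1 by omega, show (n : ℤ).toNat = n by omega,
      show (-((n : ℤ) + 1)).toNat = 0 by omega, show (-(n : ℤ)).toNat = 0 by omega,
      Finset.sum_range_succ]
    ring
  · obtain ⟨n, hn⟩ : ∃ n : ℕ, j = -(n : ℤ) - 1 := ⟨(-j - 1).toNat, by omega⟩
    subst hn
    rw [show (-(n : ℤ) - 1 + 1).toNat = 0 by omega, show (-(n : ℤ) - 1).toNat = 0 by omega,
      show (-(-(n : ℤ) - 1 + 1)).toNat = n by omega, show (-(-(n : ℤ) - 1)).toNat = n + 1 by omega,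
      Finset.sum_range_succ]
    ring

theorem Cut.eq_cum {A : Type} {τ : A → List A} {y y' : ℤ → A} {c : ℤ → ℤ} (h : Cut τ y y' c)
    (j : ℤ) : c j = cum (fun i => (τ (y' i)).length) j + c 0 := by
  induction j using Int.induction_on with
  | zero => rw [cum_zero]; ring
  | succ j ih => rw [h.step, cum_succ, ih]; ring
  | pred j ih =>
    have h1 := h.step (-j - 1)
    have h2 := cum_succ (fun i => (τ (y' i)).length) (-(j : ℤ) - 1)
    rw [show -(j : ℤ) - 1 + 1 = -j by ring] at h1 h2
    linarith

/-- For each sequence `y'` and each increasing function as in `Cut` there is a sequence `y`. -/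
theorem exists_cut {A : Type} [Inhabited A] (τ : A → List A) (hτ : ∀ a, 0 < (τ a).length)
    (y' : ℤ → A) (q : ℤ) : ∃ y c, c 0 = q ∧ Cut τ y y' c := by
  classical
  set c : ℤ → ℤ := fun j => cum (fun i => (τ (y' i)).length) j + q with hc
  have hstep : ∀ j, c (j + 1) = c j + (τ (y' j)).length := by
    intro j
    simp only [hc]
    rw [cum_succ]
    ring
  have hmono : StrictMono c := strictMono_int_of_lt_succ (by
    intro j
    rw [hstep]
    have := hτ (y' j)
    omega)
  choose J hJ1 hJ2 using exists_floor hmono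
  refine ⟨fun p => ((τ (y' (J p)))[(p - c (J p)).toNat]?).getD default, c, ?_, hstep, ?_⟩
  · simp [hc, cum_zero]
  · intro j i a hi
    obtain ⟨hlt, -⟩ := List.getElem?_eq_some_iff.1 hi
    have hj : J (c j + i) = j := by
      apply floor_unique hmono (hJ1 _) (hJ2 _)
      · omega
      · rw [hstep]; omega
    simp only [hj]
    rw [show (c j + i - c j).toNat = i by omega, hi]
    rfl

/-- `y` is the image of `y'` under `τ`, and the position `0` of `y` is the position `κ` in the word
that replaces `y' 0`. -/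
def Dsb {A : Type} (τ : A → List A) (y y' : ℤ → A) (κ : ℕ) : Prop :=
  κ < (τ (y' 0)).length ∧ ∃ c : ℤ → ℤ, c 0 = -(κ : ℤ) ∧ Cut τ y y' c

theorem dsb_iff {A : Type} {τ : A → List A} {y y' : ℤ → A} {κ : ℕ} : Dsb τ y y' κ ↔
    κ < (τ (y' 0)).length ∧
      ∀ j, Occ y (cum (fun i => (τ (y' i)).length) j - κ) (τ (y' j)) := by
  constructor
  · rintro ⟨h1, c, h2, h3⟩
    refine ⟨h1, ?_⟩
    intro j
    have := h3.occ j
    rw [h3.eq_cum j, h2] at this
    exact this
  · rintro ⟨h1, h2⟩
    refine ⟨h1, fun j => cum (fun i => (τ (y' i)).length) j - κ, ?_, ?_, h2⟩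
    · simp [cum_zero]
    · intro j
      rw [cum_succ]
      ring

theorem Dsb.zero {A : Type} {τ : A → List A} {y y' : ℤ → A} {κ : ℕ} (h : Dsb τ y y' κ) :
    (τ (y' 0))[κ]? = some (y 0) := by
  obtain ⟨h1, c, h2, h3⟩ := h
  have h4 := h3.occ 0
  rw [h2] at h4
  rw [List.getElem?_eq_getElem h1]
  have h5 := h4 κ _ (List.getElem?_eq_getElem h1)
  rw [← h5]
  simp

theorem Dsb.shift {A : Type} {τ : A → List A} {y y' : ℤ → A} {κ : ℕ} (h : Dsb τ y y' κ) :
    (κ + 1 < (τ (y' 0)).length → Dsb τ (shiftZ 1 y) y' (κ + 1)) ∧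
    (κ + 1 = (τ (y' 0)).length → (∀ a, 0 < (τ a).length) →
      Dsb τ (shiftZ 1 y) (shiftZ 1 y') 0) := by
  obtain ⟨h1, c, h2, h3⟩ := h
  refine ⟨?_, ?_⟩
  · intro h4
    refine ⟨h4, fun i => c (i + 0) - 1, ?_, ?_⟩
    · simp only [add_zero]
      rw [h2]
      push_cast
      ring
    · have := h3.shift 1 0
      have h5 : shiftZ 0 y' = y' := by
        funext i
        simp [shiftZ]
      rw [h5] at this
      exact this
  · intro h4 h5
    refine ⟨h5 _, fun i => c (i + 1) - 1, ?_, h3.shift 1 1⟩
    change c (0 + 1) - 1 = -((0 : ℕ) : ℤ)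
    rw [h3.step, h2, ← h4]
    push_cast
    ring

/-- The set of the desubstitution relation is closed. -/
theorem isClosed_dsb {A : Type} [TopologicalSpace A] [DiscreteTopology A] (τ : A → List A) :
    IsClosed {p : (ℤ → A) × (ℤ → A) × ℕ | Dsb τ p.1 p.2.1 p.2.2} := by
  have h0 : {p : (ℤ → A) × (ℤ → A) × ℕ | Dsb τ p.1 p.2.1 p.2.2} =
      {p | p.2.2 < (τ (p.2.1 0)).length} ∩ ⋂ j : ℤ, ⋂ i : ℕ, ⋂ a : A,
        {p | (τ (p.2.1 j))[i]? = some a →
          p.1 (cum (fun i => (τ (p.2.1 i)).length) j - p.2.2 + i) = a} := by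
    ext p
    simp only [Set.mem_inter_iff, Set.mem_iInter, Set.mem_ofPred_eq]
    rw [dsb_iff]
    rfl
  rw [h0]
  have hev : Continuous fun p : (ℤ → A) × ℤ => p.1 p.2 := by
    rw [continuous_prod_of_discrete_right]
    intro m
    exact continuous_apply m
  have hy' : ∀ j, Continuous fun p : (ℤ → A) × (ℤ → A) × ℕ => p.2.1 j := by
    intro j
    exact (continuous_apply j).comp (continuous_fst.comp continuous_snd)
  have hlen : ∀ j, Continuous fun p : (ℤ → A) × (ℤ → A) × ℕ => ((τ (p.2.1 j)).length : ℤ) := by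
    intro j
    exact (continuous_of_discreteTopology (f := fun a : A => ((τ a).length : ℤ))).comp (hy' j)
  have hcum : ∀ j, Continuous fun p : (ℤ → A) × (ℤ → A) × ℕ =>
      cum (fun i => (τ (p.2.1 i)).length) j := by
    intro j
    unfold cum
    apply Continuous.sub
    · exact continuous_finsetSum _ fun i _ => hlen _
    · exact continuous_finsetSum _ fun i _ => hlen _
  have hk : Continuous fun p : (ℤ → A) × (ℤ → A) × ℕ => (p.2.2 : ℤ) :=
    (continuous_of_discreteTopology (f := fun n : ℕ => (n : ℤ))).comp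
      (continuous_snd.comp continuous_snd)
  apply IsClosed.inter
  · have hf : Continuous fun p : (ℤ → A) × (ℤ → A) × ℕ => (p.2.2, p.2.1 0) :=
      (continuous_snd.comp continuous_snd).prodMk (hy' 0)
    exact (isClosed_discrete {q : ℕ × A | q.1 < (τ q.2).length}).preimage hf
  · apply isClosed_iInter
    intro j
    apply isClosed_iInter
    intro i
    apply isClosed_iInter
    intro a
    have hf : Continuous fun p : (ℤ → A) × (ℤ → A) × ℕ =>
        (p.2.1 j, p.1 (cum (fun i => (τ (p.2.1 i)).length) j - p.2.2 + i)) := by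
      apply (hy' j).prodMk
      have : Continuous fun p : (ℤ → A) × (ℤ → A) × ℕ =>
          (p.1, cum (fun i => (τ (p.2.1 i)).length) j - p.2.2 + i) :=
        continuous_fst.prodMk (((hcum j).sub hk).add continuous_const)
      exact hev.comp this
    exact (isClosed_discrete {q : A × A | (τ q.1)[i]? = some a → q.2 = a}).preimage hf

end Pool.Agent.T2H77.Toe
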