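import Pool.Agent.T2H77.Toe.Model

/-!
# The example
-/

namespace Pool.Agent.T2H77.Toe

open OBD

/-- The blocks of the long word. -/
def blk (n t : ℕ) : List Bool :=
  if t = 0 then false :: true :: true :: true :: List.replicate 2 false
  else List.replicate (n + 2 - t) false ++ (true :: List.replicate (n + 3 + t) false)

/-- The substitutions. -/
def sg (n : ℕ) (a : Bool) : List Bool :=
  match a with
  | false => false :: true :: true :: false :: List.replicate (n + 2) false
  | true => (List.range (n + 2)).flatMap (blk n)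

/-- Every `1` is followed by a `0`. -/
def Iso (r : List Bool) : Prop := ∀ i : ℕ, r[i]? = some true → r[i + 1]? = some false

theorem Iso.append {r s : List Bool} (hr : Iso r) (hs : Iso s) : Iso (r ++ s) := by
  intro i hi
  rcases Nat.lt_or_ge i r.length with h | h
  · rw [List.getElem?_append_left h] at hi
    have h1 := hr i hi
    obtain ⟨h2, -⟩ := List.getElem?_eq_some_iff.1 h1
    rw [List.getElem?_append_left h2]
    exact h1
  · rw [List.getElem?_append_right h] at hi
    have h1 := hs _ hi
    rw [List.getElem?_append_right (by omega)]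
    rw [show i + 1 - r.length = i - r.length + 1 by omega]
    exact h1

theorem Iso.replicate (m : ℕ) : Iso (List.replicate m false) := by
  intro i hi
  obtain ⟨h, h2⟩ := List.getElem?_eq_some_iff.1 hi
  rw [List.getElem_replicate] at h2
  cases h2

theorem Iso.single (m : ℕ) : Iso (true :: List.replicate (m + 1) false) := by
  intro i hi
  cases i with
  | zero => simp
  | succ i => exact Iso.replicate (m + 1) i hi

theorem iso_blk (n t : ℕ) (ht : 0 < t) : Iso (blk n t) := by
  unfold blk
  rw [if_neg (by omega)]
  apply (Iso.replicate _).append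
  rw [show n + 3 + t = n + 2 + t + 1 by omega]
  exact Iso.single _

theorem iso_flatMap (n : ℕ) (l : List ℕ) (hl : ∀ t ∈ l, 0 < t) : Iso (l.flatMap (blk n)) := by
  induction l with
  | nil => intro i hi; simp at hi
  | cons t l ih =>
    rw [List.flatMap_cons]
    apply (iso_blk n t (hl t (by simp))).append
    exact ih fun s hs => hl s (by simp [hs])

theorem range_succ_eq (m : ℕ) : List.range (m + 1) = 0 :: (List.range m).map Nat.succ :=
  List.range_succ_eq_map

theorem sg_mark (n : ℕ) : Mark (sg n) := by
  constructor
  · intro a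
    cases a with
    | false =>
      refine ⟨List.replicate (n + 2) false, rfl, Iso.replicate _⟩
    | true =>
      refine ⟨List.replicate 2 false ++ ((List.range (n + 1)).map Nat.succ).flatMap (blk n),
        ?_, ?_⟩
      · change (List.range (n + 1 + 1)).flatMap (blk n) = _
        rw [range_succ_eq, List.flatMap_cons]
        rfl
      · apply (Iso.replicate 2).append
        apply iso_flatMap
        intro t ht
        rw [List.mem_map] at ht
        obtain ⟨s, -, rfl⟩ := ht
        omega
  · intro a
    cases a with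
    | false =>
      refine ⟨false :: true :: true :: false :: List.replicate (n + 1) false, ?_⟩
      change false :: true :: true :: false :: List.replicate (n + 1 + 1) false = _
      rw [List.replicate_succ']
      rfl
    | true =>
      refine ⟨(List.range (n + 1)).flatMap (blk n) ++
        (List.replicate (n + 2 - (n + 1)) false ++ (true :: List.replicate (n + 3 + n) false)), ?_⟩
      change (List.range (n + 1 + 1)).flatMap (blk n) = _
      rw [List.range_succ, List.flatMap_append]
      rw [List.append_assoc]
      congr 1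
      simp only [List.flatMap_cons, List.flatMap_nil, List.append_nil]
      unfold blk
      rw [if_neg (by omega), show n + 3 + (n + 1) = n + 3 + n + 1 by omega, List.replicate_succ']
      simp

/-- The lengths. -/
def g : ℕ → ℕ
  | 0 => 1
  | n + 1 => (3 * n + 6) * g n

/-- The words. -/
def W : ℕ → Bool → List Bool
  | 0, a => [a]
  | n + 1, a => (sg n a).flatMap (W n)

theorem g_pos (n : ℕ) : 0 < g n := by
  induction n with
  | zero => simp [g]
  | succ n ih => rw [g]; positivity

theorem lt_g (n : ℕ) : n < g n := by
  induction n with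
  | zero => simp [g]
  | succ n ih =>
    rw [g]
    nlinarith

theorem g_mono {m n : ℕ} (h : m ≤ n) : g m ≤ g n := by
  induction n with
  | zero =>
    obtain rfl : m = 0 := by omega
    exact le_rfl
  | succ n ih =>
    rcases Nat.lt_or_ge m (n + 1) with h1 | h1
    · have := ih (by omega)
      rw [show g (n + 1) = (3 * n + 6) * g n from rfl]
      nlinarith [g_pos n]
    · obtain rfl : m = n + 1 := by omega
      exact le_rfl

theorem length_flatMap_replicate (f : Bool → List Bool) (m : ℕ) (a : Bool) :
    ((List.replicate m a).flatMap f).length = m * (f a).length := by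
  induction m with
  | zero => simp
  | succ m ih =>
    rw [List.replicate_succ, List.flatMap_cons, List.length_append, ih]
    ring

theorem length_flatMap_blk (f : Bool → List Bool) (n t G : ℕ) (ht : t ≤ n + 1)
    (h0 : (f false).length = G) (h1 : (f true).length = (n + 1) * G) :
    ((blk n t).flatMap f).length = (3 * n + 6) * G := by
  unfold blk
  split_ifs with h
  · simp only [List.flatMap_cons, List.length_append, length_flatMap_replicate, h0, h1]
    ring
  · simp only [List.flatMap_cons, List.flatMap_append, List.length_append,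
      length_flatMap_replicate, h0, h1]
    obtain ⟨s, hs⟩ : ∃ s, n + 2 = s + t := ⟨n + 2 - t, by omega⟩
    rw [show n + 2 - t = s by omega]
    have : (3 * n + 6) * G = (s + (n + 1) + (n + 3 + t)) * G := by
      congr 1
      omega
    rw [this]
    ring

theorem length_flatMap_const {α : Type} (l : List α) (f : α → List Bool) (G : ℕ)
    (h : ∀ t ∈ l, (f t).length = G) : (l.flatMap f).length = l.length * G := by
  induction l with
  | nil => simp
  | cons t l ih =>
    rw [List.flatMap_cons, List.length_append, h t (by simp),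
      ih fun s hs => h s (by simp [hs]), List.length_cons]
    ring

theorem W_true (n : ℕ) :
    W (n + 1) true = (List.range (n + 2)).flatMap fun t => (blk n t).flatMap (W n) := by
  change (((List.range (n + 2)).flatMap (blk n))).flatMap (W n) = _
  rw [List.flatMap_assoc]

theorem W_length (n : ℕ) : (W n false).length = g n ∧ (W n true).length = (n + 1) * g n := by
  induction n with
  | zero => simp [W, g]
  | succ n ih =>
    obtain ⟨h0, h1⟩ := ih
    refine ⟨?_, ?_⟩
    · rw [W, sg]
      simp only [List.flatMap_cons, List.length_append, length_flatMap_replicate, h0, h1, g]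
      ring
    · rw [W_true]
      rw [length_flatMap_const _ _ ((3 * n + 6) * g n)]
      · rw [List.length_range, g]
      · intro t ht
        rw [List.mem_range] at ht
        exact length_flatMap_blk (W n) n t (g n) (by omega) h0 h1

theorem W_pos (n : ℕ) (a : Bool) : g n ≤ (W n a).length := by
  cases a
  · rw [(W_length n).1]
  · rw [(W_length n).2]
    nlinarith [g_pos n]

/-- A block of level `n + 1`. -/
structure Blk (n : ℕ) (b : List Bool) : Prop where
  len : b.length = g (n + 1)
  beg : ∃ u, b = W n false ++ u
  fin : ∃ u, b = u ++ W n false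

theorem blk_Blk (n t : ℕ) (ht : t ≤ n + 1) : Blk n ((blk n t).flatMap (W n)) := by
  refine ⟨?_, ?_, ?_⟩
  · exact length_flatMap_blk (W n) n t (g n) ht (W_length n).1 (W_length n).2
  · unfold blk
    split_ifs with h
    · rw [List.flatMap_cons]
      exact ⟨_, rfl⟩
    · obtain ⟨s, hs⟩ : ∃ s, n + 2 - t = s + 1 := ⟨n + 1 - t, by omega⟩
      rw [hs, List.replicate_succ, List.cons_append, List.flatMap_cons]
      exact ⟨_, rfl⟩
  · unfold blk
    split_ifs with h
    · refine ⟨[false, true, true, true, false].flatMap (W n), ?_⟩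
      simp [List.flatMap_cons, List.replicate_succ]
    · refine ⟨(List.replicate (n + 2 - t) false ++ (true ::
        List.replicate (n + 2 + t) false)).flatMap (W n), ?_⟩
      rw [show n + 3 + t = n + 2 + t + 1 by omega, List.replicate_succ']
      simp [List.flatMap_append, List.flatMap_cons]

theorem W_false_Blk (n : ℕ) : Blk n (W (n + 1) false) := by
  refine ⟨(W_length (n + 1)).1, ?_, ?_⟩
  · change ∃ u, (sg n false).flatMap (W n) = _
    rw [sg, List.flatMap_cons]
    exact ⟨_, rfl⟩
  · obtain ⟨r, hr⟩ := (sg_mark n).last false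
    change ∃ u, (sg n false).flatMap (W n) = _
    rw [hr, List.flatMap_append]
    refine ⟨r.flatMap (W n), ?_⟩
    simp

/-- Each word of level `n + 1` is a concatenation of blocks. -/
theorem W_blocks (n : ℕ) (a : Bool) :
    ∃ L : List (List Bool), W (n + 1) a = L.flatten ∧ ∀ b ∈ L, Blk n b := by
  cases a with
  | false => exact ⟨[W (n + 1) false], by simp, by simpa using W_false_Blk n⟩
  | true =>
    refine ⟨(List.range (n + 2)).map fun t => (blk n t).flatMap (W n), ?_, ?_⟩
    · rw [W_true, List.flatMap_def]
    · intro b hb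
      rw [List.mem_map] at hb
      obtain ⟨t, ht, rfl⟩ := hb
      rw [List.mem_range] at ht
      exact blk_Blk n t (by omega)

theorem occ_flatten {y : ℤ → Bool} {G : ℕ} (L : List (List Bool)) (hL : ∀ b ∈ L, b.length = G) :
    ∀ {p : ℤ}, Occ y p L.flatten → ∀ (m : ℕ) (b : List Bool), L[m]? = some b →
      Occ y (p + m * G) b := by
  induction L with
  | nil =>
    intro p _ m b hm
    simp at hm
  | cons c L ih =>
    intro p hp m b hm
    rw [List.flatten_cons, occ_append] at hp
    obtain ⟨h1, h2⟩ := hp
    cases m with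
    | zero =>
      simp only [List.getElem?_cons_zero, Option.some.injEq] at hm
      subst hm
      simpa using h1
    | succ m =>
      have h3 := ih (fun b hb => hL b (by simp [hb])) h2 m b hm
      rw [hL c (by simp)] at h3
      push_cast
      rw [show p + ((m : ℤ) + 1) * G = p + G + m * G by ring]
      exact h3

theorem length_flatten_const {G : ℕ} (L : List (List Bool)) (hL : ∀ b ∈ L, b.length = G) :
    L.flatten.length = L.length * G := by
  induction L with
  | nil => simp
  | cons c L ih =>
    rw [List.flatten_cons, List.length_append, hL c (by simp), ih fun b hb => hL b (by simp [hb]),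
      List.length_cons]
    ring

theorem occ_eq {A : Type} {x y : ℤ → A} {p r : ℤ} {l : List A} (hx : Occ x p l) (hy : Occ y r l)
    {m : ℕ} (hm : m < l.length) : x (p + m) = y (r + m) := by
  rw [hx m _ (List.getElem?_eq_getElem hm), hy m _ (List.getElem?_eq_getElem hm)]

/-- The words of level `n` in a point of the subshift. -/
theorem exists_Cut {z : (ℕ → ℤ → Bool) × (ℕ → ℕ)} (hz : z ∈ ZZ sg) (n : ℕ) :
    ∃ C : ℤ → ℤ, Cut (W n) (z.1 0) (z.1 n) C ∧ (z.2 = 0 → C 0 = 0) := by
  induction n with
  | zero =>
    refine ⟨fun j => j, ⟨?_, ?_⟩, fun _ => rfl⟩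
    · intro j
      simp [W]
    · intro j
      rw [W, occ_cons]
      exact ⟨rfl, Occ.nil _ _⟩
  | succ n ih =>
    obtain ⟨C, hC, hC0⟩ := ih
    obtain ⟨-, c, hc0, hc⟩ := hz n
    refine ⟨fun j => C (c j), hC.comp hc, ?_⟩
    intro h
    simp only
    rw [hc0, h]
    simpa using hC0 h

theorem W_length_pos (n : ℕ) (a : Bool) : 0 < (W n a).length := lt_of_lt_of_le (g_pos n) (W_pos n a)

/-- In a point whose offsets vanish there is a block at each multiple of `g (n + 1)`. -/
theorem block_at {z : (ℕ → ℤ → Bool) × (ℕ → ℕ)} (hz : z ∈ ZZ sg) (h0 : z.2 = 0) (n : ℕ) (k : ℤ) :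
    ∃ b, Blk n b ∧ Occ (z.1 0) (k * g (n + 1)) b := by
  obtain ⟨C, hC, hC0⟩ := exists_Cut hz (n + 1)
  have hC0 := hC0 h0
  have hdvd : ∀ j, ∃ D : ℤ, C j = D * g (n + 1) := by
    have hlen : ∀ a, ∃ r : ℕ, (W (n + 1) a).length = r * g (n + 1) := by
      intro a
      obtain ⟨L, hL, hb⟩ := W_blocks n a
      exact ⟨L.length, by rw [hL, length_flatten_const L fun b hb' => (hb b hb').len]⟩
    intro j
    induction j using Int.induction_on with
    | zero => exact ⟨0, by rw [hC0]; ring⟩
    | succ j ih =>
      obtain ⟨D, hD⟩ := ih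
      obtain ⟨r, hr⟩ := hlen (z.1 (n + 1) j)
      refine ⟨D + r, ?_⟩
      rw [hC.step, hD, hr]
      push_cast
      ring
    | pred j ih =>
      obtain ⟨D, hD⟩ := ih
      obtain ⟨r, hr⟩ := hlen (z.1 (n + 1) (-j - 1))
      refine ⟨D - r, ?_⟩
      have h1 := hC.step (-j - 1)
      rw [show -(j : ℤ) - 1 + 1 = -j by ring, hD, hr] at h1
      push_cast at h1
      linear_combination -h1
  have hg : (0 : ℤ) < g (n + 1) := by exact_mod_cast g_pos (n + 1)
  obtain ⟨j, j1, j2⟩ := exists_floor (hC.strictMono (W_length_pos (n + 1))) (k * g (n + 1))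
  obtain ⟨D, hD⟩ := hdvd j
  obtain ⟨L, hL, hb⟩ := W_blocks n (z.1 (n + 1) j)
  have hlen := length_flatten_const L fun b hb' => (hb b hb').len
  rw [hC.step, hL, hlen, hD] at j2
  rw [hD] at j1
  have a1 : D ≤ k := le_of_mul_le_mul_right j1 hg
  have a2 : k < D + L.length := by
    have : k * g (n + 1) < (D + L.length) * g (n + 1) := by
      push_cast at j2
      linarith
    exact lt_of_mul_lt_mul_right this hg.le
  obtain ⟨m, hm⟩ : ∃ m : ℕ, k = D + m := ⟨(k - D).toNat, by omega⟩
  have hmL : m < L.length := by omega
  have hocc := hC.occ j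
  rw [hL] at hocc
  refine ⟨L[m], hb _ (List.getElem_mem hmL), ?_⟩
  have := occ_flatten L (fun b hb' => (hb b hb').len) hocc m _ (List.getElem?_eq_getElem hmL)
  rw [hD] at this
  rw [hm, add_mul]
  exact this

theorem toeplitz_window {z : (ℕ → ℤ → Bool) × (ℕ → ℕ)} (hz : z ∈ ZZ sg) (h0 : z.2 = 0) (n : ℕ)
    (i : ℤ) (hi1 : -(g n : ℤ) ≤ i) (hi2 : i < g n) (k : ℤ) :
    z.1 0 (i + k * g (n + 1)) = z.1 0 i := by
  have hbeg : ∀ k : ℤ, Occ (z.1 0) (k * g (n + 1)) (W n false) := by
    intro k
    obtain ⟨b, hb, hocc⟩ := block_at hz h0 n k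
    obtain ⟨u, hu⟩ := hb.beg
    rw [hu, occ_append] at hocc
    exact hocc.1
  have hfin : ∀ k : ℤ, Occ (z.1 0) (k * g (n + 1) - g n) (W n false) := by
    intro k
    obtain ⟨b, hb, hocc⟩ := block_at hz h0 n (k - 1)
    obtain ⟨u, hu⟩ := hb.fin
    have hlen := hb.len
    rw [hu, List.length_append, (W_length n).1] at hlen
    rw [hu, occ_append] at hocc
    have h1 := hocc.2
    have h2 : (k - 1) * (g (n + 1) : ℤ) + u.length = k * g (n + 1) - g n := by
      have : (u.length : ℤ) + g n = g (n + 1) := by exact_mod_cast hlen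
      linear_combination this
    rw [h2] at h1
    exact h1
  have hlen := (W_length n).1
  rcases le_or_gt 0 i with h | h
  · obtain ⟨m, rfl⟩ := Int.eq_ofNat_of_zero_le h
    have h1 := occ_eq (hbeg k) (hbeg 0) (m := m) (by omega)
    rw [zero_mul, zero_add] at h1
    rw [← h1, add_comm]
  · obtain ⟨m, hm⟩ : ∃ m : ℕ, i = -(g n : ℤ) + m := ⟨(i + g n).toNat, by omega⟩
    have h1 := occ_eq (hfin k) (hfin 0) (m := m) (by omega)
    rw [zero_mul] at h1
    have e1 : i + k * g (n + 1) = k * g (n + 1) - g n + m := by rw [hm]; ring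
    have e2 : i = 0 - (g n : ℤ) + m := by rw [hm]; ring
    rw [e1, h1, ← e2]

theorem not_periodic {z : (ℕ → ℤ → Bool) × (ℕ → ℕ)} (hz : z ∈ ZZ sg) (h0 : z.2 = 0) :
    ∀ p : ℕ, 1 ≤ p → ∀ n, ¬ ∀ i, z.1 n (i + p) = z.1 n i := by
  intro p
  induction p using Nat.strong_induction_on with
  | _ p ih =>
    intro hp n hper
    obtain ⟨-, c, hc0, hc⟩ := hz n
    rw [h0] at hc0
    simp only [Pi.zero_apply, Nat.cast_zero, neg_zero] at hc0
    have hmono := hc.strictMono (sg_mark n).length_pos
    obtain ⟨b0, b1, b2, -⟩ := (sg_mark n).mem_cut hc 0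
    rw [hc0] at b0 b1 b2
    obtain ⟨j, hj⟩ := (sg_mark n).cut_of_pattern hc (p := p)
      (by rw [← b0, ← hper 0, zero_add]) (by rw [← b1, ← hper (0 + 1)]; ring_nf)
      (by rw [← b2, ← hper (0 + 2)]; ring_nf)
    have hj1 : 0 < j := by
      rw [← hmono.lt_iff_lt, hc0, ← hj]
      omega
    have hc1 : 4 ≤ c 1 := by
      have h1 := hc.step 0
      have h2 := (sg_mark n).length_ge (z.1 (n + 1) 0)
      rw [zero_add] at h1
      omega
    have hlt : j < p := by
      have hm' : StrictMono fun i => c i - 1 := by
        intro a b hab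
        have := hmono hab
        simp only
        omega
      have := (le_of_strictMono hm' (by omega) (by omega)).1 j (by omega)
      omega
    have hsh := hc.shift p j
    have hy : shiftZ (p : ℤ) (z.1 n) = z.1 n := by
      funext i
      exact hper i
    rw [hy] at hsh
    have hp1 : (p : ℤ) < c (1 + j) := by
      rw [hj]; exact hmono (by omega)
    have := ((sg_mark n).cut_unique hc hsh (by omega) (by omega)
      (by rw [zero_add]; omega) (by omega)).2
    obtain ⟨m, rfl⟩ := Int.eq_ofNat_of_zero_le hj1.le
    refine ih m (by omega) (by omega) (n + 1) ?_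
    intro i
    exact (congrFun this i).symm

end Pool.Agent.T2H77.Toe
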