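import Pool.Agent.T2H77.Toe.Example

/-!
# A Toeplitz subshift of topological rank `2` that is not a strong Toeplitz subshift of any rank
-/

namespace Pool.Agent.T2H77.Toe

open OBD

theorem mem_closure_of_window {A : Type} [TopologicalSpace A] [DiscreteTopology A]
    {S : Set (ℤ → A)} {x : ℤ → A} (h : ∀ l : ℕ, ∃ y ∈ S, ∀ i : ℤ, |i| ≤ l → y i = x i) :
    x ∈ closure S := by
  rw [mem_closure_iff]
  intro U hU hxU
  obtain ⟨I, u, hu, hsub⟩ := isOpen_pi_iff.1 hU x hxU
  obtain ⟨y, hyS, hy⟩ := h (∑ i ∈ I, i.natAbs)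
  refine ⟨y, hsub ?_, hyS⟩
  intro i hi
  rw [hy i]
  · exact (hu i hi).2
  · have : i.natAbs ≤ ∑ i ∈ I, i.natAbs :=
      Finset.single_le_sum (f := fun i : ℤ => i.natAbs) (fun _ _ => Nat.zero_le _) hi
    rw [Int.abs_eq_natAbs]
    exact_mod_cast this

theorem exists_base : ∃ z ∈ ZZ sg, (∀ n, z.1 n 0 = false) ∧ z.2 = 0 := by
  apply ZZ_exists sg_mark (fun _ => false) 0
  intro n
  simp [sg]

theorem XX_shift {x : ℤ → Bool} (hx : x ∈ XX sg) : shiftZ 1 x ∈ XX sg := by
  obtain ⟨z, hz, rfl⟩ := hx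
  obtain ⟨w, hw, h, -⟩ := ZZ_next sg_mark hz
  exact ⟨w, hw, h⟩

theorem XX_shift_nat {x : ℤ → Bool} (hx : x ∈ XX sg) (k : ℕ) : shiftZ k x ∈ XX sg := by
  induction k with
  | zero =>
    have : shiftZ ((0 : ℕ) : ℤ) x = x := by
      funext i
      simp [shiftZ]
    rw [this]
    exact hx
  | succ k ih =>
    have h1 := XX_shift ih
    have : shiftZ 1 (shiftZ (k : ℤ) x) = shiftZ ((k + 1 : ℕ) : ℤ) x := by
      funext i
      change x _ = x _
      congr 1
      push_cast
      ring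
    rw [this] at h1
    exact h1

section

variable {z : (ℕ → ℤ → Bool) × (ℕ → ℕ)}

theorem toeplitz_big (hz : z ∈ ZZ sg) (h0 : z.2 = 0) (l : ℕ) :
    ∃ p : ℕ, 1 ≤ p ∧ ∀ i : ℤ, |i| ≤ l → ∀ k : ℤ, z.1 0 (i + k * p) = z.1 0 i := by
  refine ⟨g (l + 1), g_pos _, ?_⟩
  intro i hi k
  have h1 := lt_g l
  rw [abs_le] at hi
  exact toeplitz_window hz h0 l i (by omega) (by omega) k

theorem isToeplitz_base (hz : z ∈ ZZ sg) (h0 : z.2 = 0) : IsToeplitz (z.1 0) := by
  refine ⟨?_, ?_⟩
  · rintro ⟨p, hp, hper⟩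
    obtain ⟨m, rfl⟩ := Int.eq_ofNat_of_zero_le (show 0 ≤ p by omega)
    exact not_periodic hz h0 m (by omega) 0 hper
  · intro n
    obtain ⟨p, hp, h⟩ := toeplitz_big hz h0 n.natAbs
    refine ⟨p, by exact_mod_cast hp, ?_⟩
    intro k
    exact h n (by rw [Int.abs_eq_natAbs]) k

theorem orbit_subset (hz : z ∈ ZZ sg) (h0 : z.2 = 0) (k : ℤ) : shiftZ k (z.1 0) ∈ XX sg := by
  have hcl : IsClosed (XX sg) := isCompact_XX.isClosed
  rw [← hcl.closure_eq]
  apply mem_closure_of_window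
  intro l
  obtain ⟨p, hp, h⟩ := toeplitz_big hz h0 (l + k.natAbs)
  have hkp : 0 ≤ k + k.natAbs * p := by
    have h1 : (k.natAbs : ℤ) * 1 ≤ k.natAbs * p := by
      apply mul_le_mul_of_nonneg_left _ (by omega)
      exact_mod_cast hp
    omega
  obtain ⟨m, hm⟩ := Int.eq_ofNat_of_zero_le hkp
  refine ⟨shiftZ m (z.1 0), XX_shift_nat ⟨z, hz, rfl⟩ m, ?_⟩
  intro i hi
  change z.1 0 (i + m) = z.1 0 (i + k)
  rw [← hm]
  have := h (i + k) (by
    push_cast
    refine le_trans (abs_add_le i k) ?_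
    rw [Int.abs_eq_natAbs k]
    omega) k.natAbs
  rw [← this]
  ring_nf

/-- Each pair of neighbours is a pair of neighbours inside some word. -/
theorem pair_in_word {w : (ℕ → ℤ → Bool) × (ℕ → ℕ)} (hw : w ∈ ZZ sg) (n : ℕ) (j : ℤ) :
    ∃ (a : Bool) (i : ℕ), (sg n a)[i]? = some (w.1 n j) ∧
      (sg n a)[i + 1]? = some (w.1 n (j + 1)) := by
  obtain ⟨-, c, -, hc⟩ := hw n
  obtain ⟨m, m1, m2⟩ := exists_floor (hc.strictMono (sg_mark n).length_pos) j
  obtain ⟨i, hi⟩ : ∃ i : ℕ, j = c m + i := ⟨(j - c m).toNat, by omega⟩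
  rcases lt_or_ge (j + 1) (c (m + 1)) with h | h
  · refine ⟨w.1 (n + 1) m, i, ?_, ?_⟩
    · have hlt : i < (sg n (w.1 (n + 1) m)).length := by
        rw [hc.step] at m2; omega
      rw [List.getElem?_eq_getElem hlt, hi]
      rw [hc.occ m i _ (List.getElem?_eq_getElem hlt)]
    · have hlt : i + 1 < (sg n (w.1 (n + 1) m)).length := by
        rw [hc.step] at h; omega
      rw [List.getElem?_eq_getElem hlt]
      have := hc.occ m (i + 1) _ (List.getElem?_eq_getElem hlt)
      rw [← this, hi]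
      push_cast
      ring_nf
  · have e1 : j + 1 = c (m + 1) := by omega
    have e2 : j = c (m + 1) - 1 := by omega
    refine ⟨false, 3, ?_, ?_⟩
    · rw [e2, ((sg_mark n).mem_cut hc m).2.2.2.2]
      simp [sg]
    · rw [e1, ((sg_mark n).mem_cut hc (m + 1)).1]
      simp [sg, List.replicate_succ]

theorem letter_occurs (hz : z ∈ ZZ sg) (h00 : ∀ n, z.1 n 0 = false) (h0 : z.2 = 0) (n : ℕ)
    (a : Bool) : ∃ j, z.1 n j = a := by
  cases a with
  | false => exact ⟨0, h00 n⟩
  | true =>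
    obtain ⟨-, c, hc0, hc⟩ := hz n
    rw [h0] at hc0
    simp only [Pi.zero_apply, Nat.cast_zero, neg_zero] at hc0
    obtain ⟨-, b1, -⟩ := (sg_mark n).mem_cut hc 0
    rw [hc0] at b1
    exact ⟨_, b1⟩

theorem pair_occurs (hz : z ∈ ZZ sg) (h00 : ∀ n, z.1 n 0 = false) (h0 : z.2 = 0)
    {w : (ℕ → ℤ → Bool) × (ℕ → ℕ)} (hw : w ∈ ZZ sg) (n : ℕ) (j : ℤ) :
    ∃ j', z.1 n j' = w.1 n j ∧ z.1 n (j' + 1) = w.1 n (j + 1) := by
  obtain ⟨a, i, h1, h2⟩ := pair_in_word hw n j
  obtain ⟨m, hm⟩ := letter_occurs hz h00 h0 (n + 1) a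
  obtain ⟨-, c, -, hc⟩ := hz n
  have hocc := hc.occ m
  rw [hm] at hocc
  refine ⟨c m + i, hocc i _ h1, ?_⟩
  have := hocc (i + 1) _ h2
  rw [← this]
  push_cast
  ring_nf

theorem XX_eq_closure (hz : z ∈ ZZ sg) (h00 : ∀ n, z.1 n 0 = false) (h0 : z.2 = 0) :
    XX sg = closure (Set.range fun k : ℤ => shiftZ k (z.1 0)) := by
  apply Set.Subset.antisymm
  · rintro x ⟨w, hw, rfl⟩
    apply mem_closure_of_window
    intro l
    obtain ⟨C, hC, -⟩ := exists_Cut hw (2 * l + 1)
    obtain ⟨D, hD, -⟩ := exists_Cut hz (2 * l + 1)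
    obtain ⟨j, j1, j2⟩ := exists_floor (hC.strictMono (W_length_pos _)) (-(l : ℤ))
    obtain ⟨j', e1, e2⟩ := pair_occurs hz h00 h0 hw (2 * l + 1) j
    have hl : 2 * l + 1 < g (2 * l + 1) := lt_g _
    have o1 : Occ (w.1 0) (C j) (W (2 * l + 1) (w.1 (2 * l + 1) j) ++
        W (2 * l + 1) (w.1 (2 * l + 1) (j + 1))) := by
      rw [occ_append]
      refine ⟨hC.occ j, ?_⟩
      rw [← hC.step]
      exact hC.occ (j + 1)
    have o2 : Occ (z.1 0) (D j') (W (2 * l + 1) (w.1 (2 * l + 1) j) ++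
        W (2 * l + 1) (w.1 (2 * l + 1) (j + 1))) := by
      rw [occ_append, ← e1, ← e2]
      refine ⟨hD.occ j', ?_⟩
      rw [← hD.step]
      exact hD.occ (j' + 1)
    refine ⟨shiftZ (D j' - C j) (z.1 0), ⟨_, rfl⟩, ?_⟩
    intro i hi
    rw [abs_le] at hi
    obtain ⟨m, hm⟩ : ∃ m : ℕ, i = C j + m := ⟨(i - C j).toNat, by omega⟩
    have hW := W_pos (2 * l + 1) (w.1 (2 * l + 1) (j + 1))
    have hstep := hC.step j
    have hlt : m < (W (2 * l + 1) (w.1 (2 * l + 1) j) ++
        W (2 * l + 1) (w.1 (2 * l + 1) (j + 1))).length := by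
      rw [List.length_append]
      omega
    have := occ_eq o1 o2 hlt
    change z.1 0 (i + (D j' - C j)) = w.1 0 i
    rw [hm, this]
    ring_nf
  · apply closure_minimal
    · rintro _ ⟨k, rfl⟩
      exact orbit_subset hz h0 k
    · exact isCompact_XX.isClosed

end

theorem shiftZ_mem (x : ℤ → Bool) (hx : x ∈ XX sg) (k : ℤ) : shiftZ k x ∈ XX sg := by
  obtain ⟨z, hz, h00, h0⟩ := exists_base
  rw [XX_eq_closure hz h00 h0] at hx ⊢
  have hcont : Continuous (shiftZ (A := Bool) k) :=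
    continuous_pi fun i => continuous_apply (i + k)
  apply map_mem_closure hcont hx
  rintro _ ⟨m, rfl⟩
  refine ⟨m + k, ?_⟩
  funext i
  change z.1 0 _ = z.1 0 _
  ring_nf

/-- The positions of the proximal points in the words. -/
def zt : ℕ → ℕ
  | 0 => 0
  | n + 1 => zt n + (n + 2) * g n

theorem occ_flatMap_range {y : ℤ → Bool} {p : ℤ} (f : ℕ → List Bool) (G m : ℕ)
    (hf : ∀ t < m, (f t).length = G) (h : Occ y p ((List.range m).flatMap f)) (t : ℕ)
    (ht : t < m) : Occ y (p + t * G) (f t) := by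
  rw [List.flatMap_def] at h
  apply occ_flatten ((List.range m).map f) _ h t (f t)
  · rw [List.getElem?_map, List.getElem?_range ht]
    rfl
  · intro b hb
    rw [List.mem_map] at hb
    obtain ⟨s, hs, rfl⟩ := hb
    rw [List.mem_range] at hs
    exact hf s hs

theorem occ_W_true {y : ℤ → Bool} {p : ℤ} {n : ℕ} (h : Occ y p (W (n + 1) true)) (t : ℕ)
    (ht : t ≤ n + 1) : Occ y (p + t * g (n + 1)) ((blk n t).flatMap (W n)) := by
  rw [W_true] at h
  apply occ_flatMap_range (fun t => (blk n t).flatMap (W n)) (g (n + 1)) (n + 2) _ h t (by omega)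
  intro s hs
  exact (blk_Blk n s (by omega)).len

theorem occ_replicate {y : ℤ → Bool} (f : Bool → List Bool) (a : Bool) (m : ℕ) {p : ℤ}
    (h : Occ y p ((List.replicate m a).flatMap f)) (i : ℕ) (hi : i < m) :
    Occ y (p + i * (f a).length) (f a) := by
  rw [List.flatMap_def, List.map_replicate] at h
  apply occ_flatten (List.replicate m (f a)) _ h i (f a)
  · rw [List.getElem?_replicate, if_pos hi]
  · intro b hb
    rw [List.eq_of_mem_replicate hb]

theorem occ_blk {y : ℤ → Bool} {p : ℤ} {n t : ℕ} (ht1 : 1 ≤ t)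
    (h : Occ y p ((blk n t).flatMap (W n))) :
    (∀ i < n + 2 - t, Occ y (p + i * g n) (W n false)) ∧
      Occ y (p + (n + 2 - t : ℕ) * g n) (W n true) := by
  unfold blk at h
  rw [if_neg (by omega), List.flatMap_append, List.flatMap_cons, occ_append, occ_append] at h
  obtain ⟨h1, h2, -⟩ := h
  refine ⟨?_, ?_⟩
  · intro i hi
    have := occ_replicate (W n) false (n + 2 - t) h1 i hi
    rw [(W_length n).1] at this
    exact this
  · rw [length_flatMap_replicate, (W_length n).1] at h2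
    push_cast at h2
    exact h2

theorem mismatch (n : ℕ) : ∀ (x : ℤ → Bool) (p : ℤ), Occ x p (W n false) → Occ x p (W n true) →
    False := by
  induction n with
  | zero =>
    intro x p h0 h1
    rw [W, occ_cons] at h0 h1
    have := h0.1.symm.trans h1.1
    cases this
  | succ n ih =>
    intro x p h0 h1
    have e0 : W (n + 1) false = W n false ++ (W n true ++ (W n true ++ (W n false ++
        (List.replicate (n + 2) false).flatMap (W n)))) := rfl
    have e1 : ∃ r, W (n + 1) true = W n false ++ (W n true ++ (W n true ++ (W n true ++ r))) := by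
      obtain ⟨r, hr, -⟩ := (sg_mark n).shape true
      refine ⟨r.flatMap (W n), ?_⟩
      change (sg n true).flatMap (W n) = _
      rw [hr]
      rfl
    obtain ⟨r, hr⟩ := e1
    rw [e0] at h0
    rw [hr] at h1
    simp only [occ_append] at h0 h1
    exact ih x _ h0.2.2.2.1 h1.2.2.2.1

theorem isClosed_occ (p : ℤ) (l : List Bool) : IsClosed {x : ℤ → Bool | Occ x p l} := by
  have : {x : ℤ → Bool | Occ x p l} =
      ⋂ i : ℕ, ⋂ a : Bool, {x | l[i]? = some a → x (p + i) = a} := by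
    ext x
    simp only [Set.mem_iInter]
    rfl
  rw [this]
  apply isClosed_iInter
  intro i
  apply isClosed_iInter
  intro a
  have hf : Continuous fun x : ℤ → Bool => x (p + i) := continuous_apply _
  exact (isClosed_discrete {b : Bool | l[i]? = some a → b = a}).preimage hf

/-- The proximal points. -/
theorem exists_point (t : ℕ) (ht : 1 ≤ t) :
    ∃ x ∈ XX sg, ∀ n, t + 1 ≤ n → Occ x (-((t : ℤ) * g n + zt n)) (W n true) := by
  obtain ⟨z, hz, h00, h0⟩ := exists_base
  set T : ℕ → Set (ℤ → Bool) := fun m =>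
    XX sg ∩ {x | Occ x (-((t : ℤ) * g (t + 1 + m) + zt (t + 1 + m))) (W (t + 1 + m) true)} with hT
  have hcl : ∀ m, IsClosed (T m) := by
    intro m
    exact isCompact_XX.isClosed.inter (isClosed_occ _ _)
  have hne : (⋂ m, T m).Nonempty := by
    apply IsCompact.nonempty_iInter_of_sequence_nonempty_isCompact_isClosed
    · rintro m x ⟨hx, hocc⟩
      refine ⟨hx, ?_⟩
      have hocc : Occ x (-((t : ℤ) * g (t + 1 + m + 1) + zt (t + 1 + m + 1)))
        (W (t + 1 + m + 1) true) := hocc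
      set n := t + 1 + m with hn
      have h1 := (occ_blk ht (occ_W_true hocc t (by omega))).2
      have h2 : -((t : ℤ) * g (n + 1) + zt (n + 1)) + t * g (n + 1) + (n + 2 - t : ℕ) * g n =
          -((t : ℤ) * g n + zt n) := by
        rw [show zt (n + 1) = zt n + (n + 2) * g n from rfl]
        push_cast [Nat.cast_sub (show t ≤ n + 2 by omega)]
        ring
      rw [h2] at h1
      exact h1
    · intro m
      obtain ⟨j, hj⟩ := letter_occurs hz h00 h0 (t + 1 + m) true
      obtain ⟨C, hC, -⟩ := exists_Cut hz (t + 1 + m)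
      have hocc := hC.occ j
      rw [hj] at hocc
      set k : ℤ := C j + ((t : ℤ) * g (t + 1 + m) + zt (t + 1 + m)) with hk
      refine ⟨shiftZ k (z.1 0), orbit_subset hz h0 k, ?_⟩
      have := hocc.shift k
      rw [show C j - k = -((t : ℤ) * g (t + 1 + m) + zt (t + 1 + m)) by rw [hk]; ring] at this
      exact this
    · exact isCompact_XX.inter_right (isClosed_occ _ _)
    · exact hcl
  obtain ⟨x, hx⟩ := hne
  rw [Set.mem_iInter] at hx
  refine ⟨x, (hx 0).1, ?_⟩
  intro n hn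
  obtain ⟨m, rfl⟩ : ∃ m, n = t + 1 + m := ⟨n - (t + 1), by omega⟩
  exact (hx m).2

theorem point_ne {t s : ℕ} (ht : 1 ≤ t) (hts : t < s) {x : ℤ → Bool}
    (hx : ∀ n, t + 1 ≤ n → Occ x (-((t : ℤ) * g n + zt n)) (W n true))
    (hx' : ∀ n, s + 1 ≤ n → Occ x (-((s : ℤ) * g n + zt n)) (W n true)) : False := by
  have h1 := (occ_blk ht (occ_W_true (hx (s + 1) (by omega)) t (by omega))).1 (s + 2 - s)
    (by omega)
  have h2 := (occ_blk (by omega) (occ_W_true (hx' (s + 1) (by omega)) s (by omega))).2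
  have e1 : -((t : ℤ) * g (s + 1) + zt (s + 1)) + t * g (s + 1) =
    -((s : ℤ) * g (s + 1) + zt (s + 1)) + s * g (s + 1) := by ring
  rw [e1] at h1
  exact mismatch s x _ h1 h2

theorem point_prox {t s : ℕ} (ht : 1 ≤ t) (hs : 1 ≤ s) {x y : ℤ → Bool}
    (hx : ∀ n, t + 1 ≤ n → Occ x (-((t : ℤ) * g n + zt n)) (W n true))
    (hy : ∀ n, s + 1 ≤ n → Occ y (-((s : ℤ) * g n + zt n)) (W n true)) : Prox x y := by
  intro l
  set n := 2 * l + 1 + t + s with hn
  have h1 := (occ_blk ht (occ_W_true (hx (n + 1) (by omega)) t (by omega))).1 0 (by omega)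
  have h2 := (occ_blk hs (occ_W_true (hy (n + 1) (by omega)) s (by omega))).1 0 (by omega)
  have e1 : -((t : ℤ) * g (n + 1) + zt (n + 1)) + t * g (n + 1) + (0 : ℕ) * g n =
    -(zt (n + 1) : ℤ) := by push_cast; ring
  have e2 : -((s : ℤ) * g (n + 1) + zt (n + 1)) + s * g (n + 1) + (0 : ℕ) * g n =
    -(zt (n + 1) : ℤ) := by push_cast; ring
  rw [e1] at h1
  rw [e2] at h2
  have hlt : n < g n := lt_g n
  refine ⟨-(zt (n + 1) : ℤ) + l, ?_⟩
  intro i hi
  rw [abs_le] at hi
  obtain ⟨m, hm⟩ : ∃ m : ℕ, i + l = m := ⟨(i + l).toNat, by omega⟩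
  have := occ_eq h1 h2 (m := m) (by rw [(W_length n).1]; omega)
  rw [show i + (-(zt (n + 1) : ℤ) + l) = -(zt (n + 1) : ℤ) + m by rw [← hm]; ring]
  exact this

/-- No Bratteli-Vershik system with the equal path number property and bounded level sizes is
conjugate to the example. -/
theorem not_conj_EPN (R : ℕ) {B : OBD} (hB : B.EqualPathNumber)
    (hR : ∀ n, Nat.card (B.V (n + 1)) ≤ R) (hc : Conj (XX sg) B) : False := by
  choose x hx hx' using fun i : Fin (R + 1) => exists_point (i.val + 1) (by omega)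
  refine no_proximal isCompact_XX (fun y hy k => shiftZ_mem y hy k) hB hR hc
    (fun i => ⟨x i, hx i⟩) ?_ ?_
  · intro i j hij
    by_contra hne
    have hxx : x i = x j := congrArg Subtype.val hij
    have h1 := hx' i
    have h2 := hx' j
    rw [hxx] at h1
    rcases lt_or_gt_of_ne (fun h : i.val = j.val => hne (Fin.ext h)) with h | h
    · exact point_ne (by omega) (by omega) h1 h2
    · exact point_ne (by omega) (by omega) h2 h1
  · intro i j
    exact point_prox (by omega) (by omega) (hx' i) (hx' j)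

theorem main_toeplitz : IsToeplitzSubshift (XX sg) := by
  obtain ⟨z, hz, h00, h0⟩ := exists_base
  exact ⟨z.1 0, isToeplitz_base hz h0, XX_eq_closure hz h00 h0⟩

theorem main_not_strong (R : ℕ) : ¬ StrongToeplitz (XX sg) R := by
  rintro ⟨B, -, -, hB, hR, hc⟩
  exact not_conj_EPN R hB (fun n => (hR n).le) hc

theorem main_rank : HasTopRank (XX sg) 2 := by
  refine ⟨⟨diag sg sg_mark, diag_simple sg_mark, diag_properlyOrdered sg_mark,
    diag_card sg_mark, conj_XX sg_mark⟩, ?_⟩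
  rintro K ⟨B, -, -, hK, hc⟩
  by_contra hlt
  push Not at hlt
  have hsub : ∀ n, Subsingleton (B.V (n + 1)) := by
    intro n
    have := B.finV (n + 1)
    rw [← Finite.card_le_one_iff_subsingleton]
    have := hK n
    omega
  have hE : B.EqualPathNumber := by
    intro n v w
    rw [(hsub n).elim v w]
  exact not_conj_EPN 1 hE (fun n => by have := hK n; omega) hc

end Pool.Agent.T2H77.Toe
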