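import Pool.Agent.T2H77.Toe.System

/-!
# The Bratteli-Vershik model of the subshift of a sequence of marked substitutions
-/

namespace Pool.Agent.T2H77.Toe

open OBD

/-- The vertices of the diagram. -/
def dV : ℕ → Type
  | 0 => Unit
  | _ + 1 => Bool

/-- The degrees of the diagram. -/
def dDeg (σ : ℕ → Bool → List Bool) : ∀ n, dV (n + 1) → ℕ
  | 0, _ => 1
  | n + 1, v => (σ n v).length

/-- The sources of the diagram. -/
def dSrc (σ : ℕ → Bool → List Bool) : ∀ n (v : dV (n + 1)), Fin (dDeg σ n v) → dV n
  | 0, _, _ => ()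
  | n + 1, v, i => (σ n v)[i.val]'i.isLt

theorem Mark.get_zero {τ : Bool → List Bool} (h : Mark τ) (v : Bool) (h0 : 0 < (τ v).length) :
    (τ v)[0] = false := by
  obtain ⟨r, hr, -⟩ := h.shape v
  simp [hr]

theorem Mark.get_one {τ : Bool → List Bool} (h : Mark τ) (v : Bool) (h0 : 1 < (τ v).length) :
    (τ v)[1] = true := by
  obtain ⟨r, hr, -⟩ := h.shape v
  simp [hr]

theorem Mark.get_last {τ : Bool → List Bool} (h : Mark τ) (v : Bool) (i : ℕ)
    (h0 : i < (τ v).length) (hi : i + 1 = (τ v).length) : (τ v)[i] = false := by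
  obtain ⟨r, hr⟩ := h.last v
  have h1 : (τ v)[i]? = some false := by
    rw [hr] at hi ⊢
    simp only [List.length_append, List.length_singleton] at hi
    rw [show i = r.length by omega]
    simp
  rw [List.getElem?_eq_getElem h0] at h1
  exact Option.some.inj h1

/-- The ordered Bratteli diagram of a sequence of marked substitutions. -/
def diag (σ : ℕ → Bool → List Bool) (hσ : ∀ n, Mark (σ n)) : OBD where
  V := dV
  finV := by
    intro n
    cases n
    · exact inferInstanceAs (Finite Unit)
    · exact inferInstanceAs (Finite Bool)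
  topV := ⟨⟨()⟩, inferInstanceAs (Subsingleton Unit)⟩
  deg := dDeg σ
  deg_pos := by
    intro n v
    cases n
    · exact Nat.one_pos
    · exact (hσ _).length_pos v
  src := dSrc σ
  out := by
    intro n w
    cases n with
    | zero => exact ⟨false, ⟨0, Nat.one_pos⟩, rfl⟩
    | succ n =>
      have h4 := (hσ n).length_ge false
      cases hw : w with
      | false =>
        refine ⟨false, ⟨0, (hσ n).length_pos false⟩, ?_⟩
        exact (hσ n).get_zero false _
      | true =>
        refine ⟨false, ⟨1, show 1 < (σ n false).length by omega⟩, ?_⟩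
        exact (hσ n).get_one false _

section

variable {σ : ℕ → Bool → List Bool} (hσ : ∀ n, Mark (σ n))

theorem diag_card (n : ℕ) : Nat.card ((diag σ hσ).V (n + 1)) ≤ 2 := by
  change Nat.card Bool ≤ 2
  simp

theorem diag_simple : (diag σ hσ).Simple := by
  intro n
  refine ⟨1, one_pos, ?_⟩
  intro w v
  cases n with
  | zero => exact ⟨⟨0, Nat.one_pos⟩, rfl⟩
  | succ n =>
    have h4 := (hσ n).length_ge v
    cases hw : w with
    | false =>
      refine ⟨⟨0, (hσ n).length_pos v⟩, ?_⟩
      exact ((hσ n).get_zero v _).symm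
    | true =>
      refine ⟨⟨1, show 1 < (σ n v).length by omega⟩, ?_⟩
      exact ((hσ n).get_one v _).symm

theorem diag_properlyOrdered : (diag σ hσ).ProperlyOrdered := by
  refine ⟨⟨⟨fun n => ⟨false, ⟨(diag σ hσ).deg n false - 1,
      Nat.sub_lt ((diag σ hσ).deg_pos n false) one_pos⟩⟩, ?_⟩, ?_, ?_⟩,
    ⟨⟨fun n => ⟨false, ⟨0, (diag σ hσ).deg_pos n false⟩⟩, ?_⟩, ?_, ?_⟩⟩
  · intro n
    have := (hσ n).length_pos false
    exact (hσ n).get_last false _ _ (by
      change (σ n false).length - 1 + 1 = (σ n false).length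
      omega)
  · intro n
    have := (diag σ hσ).deg_pos n false
    change (diag σ hσ).deg n false - 1 + 1 = (diag σ hσ).deg n false
    omega
  · intro η hη
    have ht : ∀ n, (η.1 n).tgt = false := by
      intro n
      rw [← η.2 n]
      exact (hσ n).get_last _ _ _ (hη (n + 1))
    apply Subtype.ext
    funext n
    apply edge_ext (ht n)
    have h1 : (η.1 n).idx.val + 1 = (diag σ hσ).deg n (η.1 n).tgt := hη n
    have h2 : (diag σ hσ).deg n (η.1 n).tgt = (diag σ hσ).deg n false := congrArg _ (ht n)
    change (η.1 n).idx.val = (diag σ hσ).deg n false - 1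
    omega
  · intro n
    exact (hσ n).get_zero false _
  · intro n
    rfl
  · intro η hη
    have ht : ∀ n, (η.1 n).tgt = false := by
      intro n
      rw [← η.2 n]
      have h1 := hη (n + 1)
      have h2 : (η.1 (n + 1)).idx = ⟨0, (diag σ hσ).deg_pos _ _⟩ := Fin.ext h1
      rw [h2]
      exact (hσ n).get_zero _ _
    apply Subtype.ext
    funext n
    exact edge_ext (ht n) (hη n)

/-- The path of a compatible family. -/
def toPath (z : ZZ σ) : (diag σ hσ).Path :=
  ⟨fun n => match n with
    | 0 => ⟨z.1.1 0 0, ⟨0, Nat.one_pos⟩⟩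
    | n + 1 => ⟨z.1.1 (n + 1) 0, ⟨z.1.2 n, (z.2 n).1⟩⟩, by
    intro n
    have h1 := (z.2 n).zero
    rw [List.getElem?_eq_getElem (z.2 n).1] at h1
    cases n with
    | zero => exact Option.some.inj h1
    | succ n => exact Option.some.inj h1⟩

theorem toPath_tgt (z : ZZ σ) (n : ℕ) : ((toPath hσ z).1 n).tgt = z.1.1 n 0 := by
  cases n <;> rfl

theorem toPath_idx (z : ZZ σ) (n : ℕ) : ((toPath hσ z).1 (n + 1)).idx.val = z.1.2 n := rfl

theorem toPath_injective : Function.Injective (toPath hσ) := by
  intro z w h
  apply Subtype.ext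
  apply ZZ_inj' hσ z.2 w.2
  · intro n
    have h1 := toPath_tgt hσ z n
    have h2 := toPath_tgt hσ w n
    rw [h] at h1
    exact h1.symm.trans h2
  · funext n
    have h1 := toPath_idx hσ z n
    have h2 := toPath_idx hσ w n
    rw [h] at h1
    exact h1.symm.trans h2

theorem toPath_surjective : Function.Surjective (toPath hσ) := by
  intro ξ
  obtain ⟨z, hz, h1, h2⟩ := ZZ_exists hσ (fun n => (ξ.1 n).tgt) (fun n => (ξ.1 (n + 1)).idx.val)
    (by
      intro n
      have h3 := ξ.2 n
      rw [List.getElem?_eq_getElem (ξ.1 (n + 1)).idx.isLt]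
      exact congrArg some h3)
  refine ⟨⟨z, hz⟩, ?_⟩
  apply Subtype.ext
  funext n
  apply edge_ext
  · rw [toPath_tgt]
    exact h1 n
  · cases n with
    | zero =>
      have h3 : (ξ.1 0).idx.val < 1 := (ξ.1 0).idx.isLt
      have h4 : ((toPath hσ ⟨z, hz⟩).1 0).idx.val = 0 := rfl
      omega
    | succ n =>
      rw [toPath_idx]
      simp only
      rw [h2]

theorem continuous_of_factor {X D D' : Type} [TopologicalSpace X] [TopologicalSpace D]
    [DiscreteTopology D] [TopologicalSpace D'] (p : X → D)
    (hp : Continuous p) (f : X → D') (h : ∀ x y, p x = p y → f x = f y) : Continuous f := by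
  rw [continuous_def]
  intro s _
  have : f ⁻¹' s = p ⁻¹' (p '' (f ⁻¹' s)) := by
    ext x
    constructor
    · intro hx
      exact ⟨x, hx, rfl⟩
    · rintro ⟨y, hy, hxy⟩
      have := h y x hxy
      rw [Set.mem_preimage] at hy ⊢
      rw [← this]
      exact hy
  rw [this]
  exact (isOpen_discrete _).preimage hp

theorem toPath_continuous : Continuous (toPath hσ) := by
  apply Continuous.subtype_mk
  apply continuous_pi
  intro n
  cases n with
  | zero =>
    have hp : Continuous fun z : ZZ σ => z.1.1 0 0 :=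
      (continuous_apply (0 : ℤ)).comp ((continuous_apply 0).comp
        (continuous_fst.comp continuous_subtype_val))
    apply continuous_of_factor _ hp
    intro z w h
    exact edge_ext h rfl
  | succ n =>
    have hp : Continuous fun z : ZZ σ => (z.1.1 (n + 1) 0, z.1.2 n) :=
      ((continuous_apply (0 : ℤ)).comp ((continuous_apply (n + 1)).comp
        (continuous_fst.comp continuous_subtype_val))).prodMk
        ((continuous_apply n).comp (continuous_snd.comp continuous_subtype_val))
    apply continuous_of_factor _ hp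
    intro z w h
    exact edge_ext (congrArg Prod.fst h) (congrArg Prod.snd h)

/-- The subshift of a sequence of substitutions. -/
def XX (σ : ℕ → Bool → List Bool) : Set (ℤ → Bool) := (fun z => z.1 0) '' ZZ σ

theorem isCompact_XX : IsCompact (XX σ) :=
  isCompact_ZZ.image ((continuous_apply 0).comp continuous_fst)

/-- The map from families to sequences. -/
def toSeq (z : ZZ σ) : XX σ := ⟨z.1.1 0, z.1, z.2, rfl⟩

include hσ in
theorem toSeq_bijective : Function.Bijective (toSeq (σ := σ)) := by
  constructor
  · intro z w h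
    apply Subtype.ext
    exact ZZ_inj hσ z.2 w.2 (congrArg Subtype.val h)
  · rintro ⟨x, z, hz, rfl⟩
    exact ⟨⟨z, hz⟩, rfl⟩

theorem toSeq_continuous : Continuous (toSeq (σ := σ)) := by
  apply Continuous.subtype_mk
  exact (continuous_apply 0).comp (continuous_fst.comp continuous_subtype_val)

theorem succ_toPath (z w : ZZ σ) (h : w.1.1 0 = shift (z.1.1 0)) :
    (diag σ hσ).Succ (toPath hσ z) (toPath hσ w) := by
  obtain ⟨w', hw', e1, e2, e3⟩ := ZZ_next hσ z.2
  have hww : w' = w.1 := by
    apply ZZ_inj hσ hw' w.2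
    rw [e1, h]
    rfl
  subst hww
  have max0 : EdgeMax ((toPath hσ z).1 0) := rfl
  have maxs : ∀ n, EdgeMax ((toPath hσ z).1 (n + 1)) ↔
      z.1.2 n + 1 = (σ n (z.1.1 (n + 1) 0)).length := fun n => Iff.rfl
  have min0 : EdgeMin ((toPath hσ w).1 0) := rfl
  have mins : ∀ n, EdgeMin ((toPath hσ w).1 (n + 1)) ↔ w.1.2 n = 0 := fun n => Iff.rfl
  refine ⟨?_, ?_⟩
  · intro hall n
    cases n with
    | zero => exact min0
    | succ n =>
      rw [mins]
      exact e2 (fun m => (maxs m).1 (hall (m + 1))) n
  · intro n hn hne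
    cases n with
    | zero => exact absurd max0 hne
    | succ n =>
      obtain ⟨a1, a2, a3, a4⟩ := e3 n (fun m hm => (maxs m).1 (hn (m + 1) (by omega)))
        (fun hcon => hne ((maxs n).2 hcon))
      refine ⟨?_, ?_, ?_, ?_⟩
      · intro m hm
        cases m with
        | zero => exact min0
        | succ m => exact (mins m).2 (a1 m (by omega))
      · rw [toPath_tgt, toPath_tgt, a3 (n + 1) (by omega)]
      · rw [toPath_idx, toPath_idx, a2]
      · intro m hm
        cases m with
        | zero => omega
        | succ m =>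
          apply edge_ext
          · rw [toPath_tgt, toPath_tgt, a3 (m + 1) (by omega)]
          · rw [toPath_idx, toPath_idx, a4 m (by omega)]

/-- The subshift is conjugate to the Bratteli-Vershik system of the diagram. -/
theorem conj_XX : Conj (XX σ) (diag σ hσ) := by
  have : CompactSpace (ZZ σ) := isCompact_iff_compactSpace.1 isCompact_ZZ
  have c1 : Continuous (Equiv.ofBijective _ (toSeq_bijective hσ)) := toSeq_continuous
  have c2 : Continuous (Equiv.ofBijective _ ⟨toPath_injective hσ, toPath_surjective hσ⟩) :=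
    toPath_continuous hσ
  refine ⟨(c1.homeoOfEquivCompactToT2).symm.trans (c2.homeoOfEquivCompactToT2), ?_⟩
  intro x y hxy
  obtain ⟨z, hz⟩ := (toSeq_bijective hσ).2 x
  obtain ⟨w, hw⟩ := (toSeq_bijective hσ).2 y
  have e1 : (c1.homeoOfEquivCompactToT2).symm x = z := by
    rw [Homeomorph.symm_apply_eq]
    exact hz.symm
  have e2 : (c1.homeoOfEquivCompactToT2).symm y = w := by
    rw [Homeomorph.symm_apply_eq]
    exact hw.symm
  rw [Homeomorph.trans_apply, Homeomorph.trans_apply, e1, e2]
  apply succ_toPath hσ z w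
  rw [← hz, ← hw] at hxy
  exact hxy

end

end Pool.Agent.T2H77.Toe
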