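import Pool.Agent.T2H77.Toe.Desub

/-!
# The subshift and the ordered Bratteli diagram of a sequence of marked substitutions
-/

namespace Pool.Agent.T2H77.Toe

open OBD

/-- A substitution whose words start with `0 1 1 a`, `a` the letter that is replaced, have no other
occurrence of `0 1 1` and end with `0`. -/
structure Mark (τ : Bool → List Bool) : Prop where
  shape : ∀ a, ∃ r, τ a = false :: true :: true :: a :: r ∧
    ∀ i : ℕ, r[i]? = some true → r[i + 1]? = some false
  last : ∀ a, ∃ r, τ a = r ++ [false]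

namespace Mark

variable {τ : Bool → List Bool}

theorem length_ge (h : Mark τ) (a : Bool) : 4 ≤ (τ a).length := by
  obtain ⟨r, hr, -⟩ := h.shape a
  rw [hr]
  simp

theorem length_pos (h : Mark τ) (a : Bool) : 0 < (τ a).length := by
  have := h.length_ge a
  omega

theorem mem_cut (h : Mark τ) {y y' : ℤ → Bool} {c : ℤ → ℤ} (hc : Cut τ y y' c) (j : ℤ) :
    y (c j) = false ∧ y (c j + 1) = true ∧ y (c j + 2) = true ∧ y (c j + 3) = y' j ∧
      y (c (j + 1) - 1) = false := by
  have h1 := hc.occ j
  obtain ⟨r, hr, -⟩ := h.shape (y' j)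
  refine ⟨?_, ?_, ?_, ?_, ?_⟩
  · have := h1 0 false (by rw [hr]; rfl)
    simpa using this
  · exact h1 1 true (by rw [hr]; rfl)
  · exact h1 2 true (by rw [hr]; rfl)
  · exact h1 3 (y' j) (by rw [hr]; rfl)
  · obtain ⟨s, hs⟩ := h.last (y' j)
    have := h1 s.length false (by rw [hs]; simp)
    rw [hc.step, hs]
    rw [← this]
    congr 1
    simp only [List.length_append, List.length_singleton]
    push_cast
    ring

theorem cut_of_pattern (h : Mark τ) {y y' : ℤ → Bool} {c : ℤ → ℤ} (hc : Cut τ y y' c) {p : ℤ}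
    (h0 : y p = false) (h1 : y (p + 1) = true) (h2 : y (p + 2) = true) : ∃ j, p = c j := by
  obtain ⟨j, hj1, hj2⟩ := exists_floor (hc.strictMono h.length_pos) p
  refine ⟨j, ?_⟩
  by_contra hne
  obtain ⟨i, hi⟩ : ∃ i : ℕ, p = c j + i := ⟨(p - c j).toNat, by omega⟩
  have hi0 : 0 < i := by
    rcases Nat.eq_zero_or_pos i with h | h
    · exfalso; apply hne; rw [hi, h]; simp
    · exact h
  have hlt : i < (τ (y' j)).length := by
    rw [hc.step] at hj2
    omega
  have hocc := hc.occ j
  obtain ⟨r, hr, hr2⟩ := h.shape (y' j)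
  have hi3 : 3 ≤ i := by
    by_contra hcon
    have : i = 1 ∨ i = 2 := by omega
    rcases this with rfl | rfl
    · have := hocc 1 true (by rw [hr]; rfl)
      rw [hi] at h0
      rw [this] at h0
      cases h0
    · have := hocc 2 true (by rw [hr]; rfl)
      rw [hi] at h0
      rw [this] at h0
      cases h0
  rcases Nat.lt_or_ge (i + 1) (τ (y' j)).length with hlt2 | hge
  · obtain ⟨m, rfl⟩ : ∃ m, i = m + 3 := ⟨i - 3, by omega⟩
    have hlen : (τ (y' j)).length = r.length + 4 := by rw [hr]; simp
    have hm : m < r.length := by omega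
    have e1 : (τ (y' j))[m + 3 + 1]? = some (r[m]) := by
      rw [hr]
      change r[m]? = some (r[m])
      exact List.getElem?_eq_getElem hm
    have e2 := hocc _ _ e1
    have e3 : y (c j + ((m + 3 + 1 : ℕ) : ℤ)) = true := by
      rw [← h1, hi]
      congr 1
      push_cast
      ring
    rw [e3] at e2
    have e4 := hr2 m (by rw [List.getElem?_eq_getElem hm, ← e2])
    have e5 : (τ (y' j))[m + 3 + 2]? = some false := by
      rw [hr]
      exact e4
    have e6 := hocc _ _ e5
    have e7 : y (c j + ((m + 3 + 2 : ℕ) : ℤ)) = true := by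
      rw [← h2, hi]
      congr 1
      push_cast
      ring
    rw [e7] at e6
    cases e6
  · have e1 : p + 1 = c (j + 1) := by
      rw [hc.step, hi]
      omega
    have e2 := (h.mem_cut hc (j + 1)).1
    rw [← e1, h1] at e2
    cases e2

/-- Recognizability. -/
theorem cut_unique (h : Mark τ) {y y₁ y₂ : ℤ → Bool} {c₁ c₂ : ℤ → ℤ} (h₁ : Cut τ y y₁ c₁)
    (h₂ : Cut τ y y₂ c₂) (a₁ : c₁ 0 ≤ 0) (b₁ : 0 < c₁ 1) (a₂ : c₂ 0 ≤ 0) (b₂ : 0 < c₂ 1) :
    c₁ = c₂ ∧ y₁ = y₂ := by
  have m₁ := h₁.strictMono h.length_pos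
  have m₂ := h₂.strictMono h.length_pos
  have r₁ : ∀ j, ∃ i, c₁ j = c₂ i := by
    intro j
    obtain ⟨e1, e2, e3, -⟩ := h.mem_cut h₁ j
    exact h.cut_of_pattern h₂ e1 e2 e3
  have r₂ : ∀ j, ∃ i, c₂ j = c₁ i := by
    intro j
    obtain ⟨e1, e2, e3, -⟩ := h.mem_cut h₂ j
    exact h.cut_of_pattern h₁ e1 e2 e3
  have h0 : c₁ 0 = c₂ 0 := by
    obtain ⟨i, hi⟩ := r₁ 0
    obtain ⟨i', hi'⟩ := r₂ 0
    have e1 : c₂ i < c₂ 1 := by omega
    have e2 : c₁ i' < c₁ 1 := by omega
    rw [m₂.lt_iff_lt] at e1
    rw [m₁.lt_iff_lt] at e2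
    have e3 : c₂ i ≤ c₂ 0 := m₂.monotone (by omega)
    have e4 : c₁ i' ≤ c₁ 0 := m₁.monotone (by omega)
    omega
  have hcc := eq_of_range m₁ m₂ h0 r₁ r₂
  refine ⟨hcc, ?_⟩
  funext j
  have e1 := (h.mem_cut h₁ j).2.2.2.1
  have e2 := (h.mem_cut h₂ j).2.2.2.1
  rw [← e1, ← e2, hcc]

theorem dsb_unique (h : Mark τ) {y y₁ y₂ : ℤ → Bool} {κ₁ κ₂ : ℕ} (h₁ : Dsb τ y y₁ κ₁)
    (h₂ : Dsb τ y y₂ κ₂) : y₁ = y₂ ∧ κ₁ = κ₂ := by
  obtain ⟨l₁, c₁, z₁, d₁⟩ := h₁
  obtain ⟨l₂, c₂, z₂, d₂⟩ := h₂
  have s₁ := d₁.step 0
  have s₂ := d₂.step 0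
  rw [zero_add] at s₁ s₂
  obtain ⟨e1, e2⟩ := h.cut_unique d₁ d₂ (by omega) (by omega) (by omega) (by omega)
  refine ⟨e2, ?_⟩
  rw [e1] at z₁
  omega

end Mark

/-- Compatible families of two-sided sequences. -/
def ZZ (σ : ℕ → Bool → List Bool) : Set ((ℕ → ℤ → Bool) × (ℕ → ℕ)) :=
  {z | ∀ n, Dsb (σ n) (z.1 n) (z.1 (n + 1)) (z.2 n)}

section

variable {σ : ℕ → Bool → List Bool}

theorem isClosed_ZZ : IsClosed (ZZ σ) := by
  have h : ZZ σ = ⋂ n, (fun z : (ℕ → ℤ → Bool) × (ℕ → ℕ) => (z.1 n, z.1 (n + 1), z.2 n)) ⁻¹'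
      {p : (ℤ → Bool) × (ℤ → Bool) × ℕ | Dsb (σ n) p.1 p.2.1 p.2.2} := by
    ext z
    simp only [Set.mem_iInter, Set.mem_preimage]
    rfl
  rw [h]
  apply isClosed_iInter
  intro n
  apply (isClosed_dsb (σ n)).preimage
  exact ((continuous_apply n).comp continuous_fst).prodMk
    (((continuous_apply (n + 1)).comp continuous_fst).prodMk
      ((continuous_apply n).comp continuous_snd))

theorem isCompact_ZZ : IsCompact (ZZ σ) := by
  have h1 : IsCompact ((Set.univ : Set (ℕ → ℤ → Bool)) ×ˢ
      (Set.pi Set.univ fun n => Set.Iic ((σ n false).length + (σ n true).length))) := by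
    apply isCompact_univ.prod
    apply isCompact_univ_pi
    intro n
    exact (Set.finite_Iic _).isCompact
  apply h1.of_isClosed_subset isClosed_ZZ
  intro z hz
  refine ⟨Set.mem_univ _, ?_⟩
  intro n _
  have h2 : z.2 n < (σ n (z.1 (n + 1) 0)).length := (hz n).1
  change z.2 n ≤ _
  cases h3 : z.1 (n + 1) 0
  · rw [h3] at h2; omega
  · rw [h3] at h2; omega

/-- The sequence of level `0` determines the whole family. -/
theorem ZZ_inj (hσ : ∀ n, Mark (σ n)) {z w : (ℕ → ℤ → Bool) × (ℕ → ℕ)} (hz : z ∈ ZZ σ)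
    (hw : w ∈ ZZ σ) (h : z.1 0 = w.1 0) : z = w := by
  have key : ∀ n, z.1 n = w.1 n := by
    intro n
    induction n with
    | zero => exact h
    | succ n ih =>
      have h1 := hz n
      have h2 := hw n
      rw [← ih] at h2
      exact ((hσ n).dsb_unique h1 h2).1
  apply Prod.ext
  · funext n
    exact key n
  · funext n
    have h1 := hz n
    have h2 := hw n
    rw [← key n] at h2
    exact ((hσ n).dsb_unique h1 h2).2

theorem le_of_strictMono {c : ℤ → ℤ} (hc : StrictMono c) (h0 : c 0 ≤ 0) (h1 : 0 < c 1) :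
    (∀ j : ℤ, 1 ≤ j → j ≤ c j) ∧ ∀ j : ℤ, j ≤ 0 → c j ≤ j := by
  refine ⟨?_, ?_⟩
  · intro j hj
    obtain ⟨n, rfl⟩ : ∃ n : ℕ, j = n + 1 := ⟨(j - 1).toNat, by omega⟩
    clear hj
    induction n with
    | zero =>
      push_cast
      omega
    | succ n ih =>
      have := hc (show (n : ℤ) + 1 < ((n + 1 : ℕ) : ℤ) + 1 by push_cast; omega)
      push_cast at this ⊢
      omega
  · intro j hj
    obtain ⟨n, rfl⟩ : ∃ n : ℕ, j = -(n : ℤ) := ⟨(-j).toNat, by omega⟩
    clear hj
    induction n with
    | zero => simpa using h0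
    | succ n ih =>
      have := hc (show -((n + 1 : ℕ) : ℤ) < -(n : ℤ) by push_cast; omega)
      push_cast at this ⊢
      omega

/-- The letters at the origin and the offsets determine the whole family. -/
theorem ZZ_inj' (hσ : ∀ n, Mark (σ n)) {z w : (ℕ → ℤ → Bool) × (ℕ → ℕ)} (hz : z ∈ ZZ σ)
    (hw : w ∈ ZZ σ) (h0 : ∀ n, z.1 n 0 = w.1 n 0) (h1 : z.2 = w.2) : z = w := by
  have key : ∀ l : ℕ, ∀ n, ∀ t : ℤ, |t| ≤ l → z.1 n t = w.1 n t := by
    intro l
    induction l with
    | zero =>
      intro n t ht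
      have : t = 0 := by
        rw [← abs_nonpos_iff]
        simpa using ht
      rw [this]
      exact h0 n
    | succ l ih =>
      intro n t ht
      rcases le_or_gt |t| (l : ℤ) with hle | hgt
      · exact ih n t hle
      obtain ⟨-, c, c0, hc⟩ := hz n
      obtain ⟨-, d, d0, hd⟩ := hw n
      rw [← h1] at d0
      have mc := hc.strictMono (hσ n).length_pos
      have md := hd.strictMono (hσ n).length_pos
      have hlt := (hz n).1
      have hc1 : 0 < c 1 := by
        have := hc.step 0
        rw [zero_add] at this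
        omega
      obtain ⟨g1, g2⟩ := le_of_strictMono mc (by omega) hc1
      have up : ∀ k : ℕ, k ≤ l + 1 → c k = d k := by
        intro k
        induction k with
        | zero => intro _; push_cast; omega
        | succ k ihk =>
          intro hk
          push_cast
          rw [hc.step, hd.step, ihk (by omega), ih (n + 1) k (by
            rw [abs_of_nonneg (by omega)]; omega)]
      have down : ∀ k : ℕ, k ≤ l → c (-k) = d (-k) := by
        intro k
        induction k with
        | zero => intro _; push_cast; simp only [neg_zero]; omega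
        | succ k ihk =>
          intro hk
          have s1 := hc.step (-((k + 1 : ℕ) : ℤ))
          have s2 := hd.step (-((k + 1 : ℕ) : ℤ))
          rw [show -((k + 1 : ℕ) : ℤ) + 1 = -(k : ℤ) by push_cast; ring] at s1 s2
          rw [ih (n + 1) (-((k + 1 : ℕ) : ℤ)) (by
            rw [abs_of_nonpos (by omega)]; omega)] at s1
          have := ihk (by omega)
          omega
      obtain ⟨j, j1, j2⟩ := exists_floor mc t
      rcases le_or_gt 0 t with ht0 | ht0
      · -- positive side
        have htl : t = l + 1 := by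
          rw [abs_of_nonneg ht0] at ht hgt
          push_cast at ht
          omega
        have hj0 : 0 ≤ j := by
          have : c 0 < c (j + 1) := by omega
          rw [mc.lt_iff_lt] at this
          omega
        obtain ⟨k, rfl⟩ := Int.eq_ofNat_of_zero_le hj0
        have hkl : k ≤ l + 1 := by
          rcases Nat.eq_zero_or_pos k with h | h
          · omega
          · have := g1 k (by omega)
            omega
        have hck := up k hkl
        rcases eq_or_lt_of_le j1 with he | hl
        · rw [← he]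
          rw [((hσ n).mem_cut hc k).1, hck, ((hσ n).mem_cut hd k).1]
        · have hkl2 : k ≤ l := by
            rcases Nat.eq_zero_or_pos k with h | h
            · omega
            · have := g1 k (by omega)
              omega
          have hlet : z.1 (n + 1) k = w.1 (n + 1) k := ih (n + 1) k (by
            rw [abs_of_nonneg (by omega)]; omega)
          obtain ⟨i, hi⟩ : ∃ i : ℕ, t = c k + i := ⟨(t - c k).toNat, by omega⟩
          have hil : i < (σ n (z.1 (n + 1) k)).length := by
            rw [hc.step] at j2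
            omega
          have e1 := hc.occ k i _ (List.getElem?_eq_getElem hil)
          have e2 := hd.occ k i ((σ n (z.1 (n + 1) k))[i]) (by
            rw [← hlet]; exact List.getElem?_eq_getElem hil)
          rw [hi, e1, hck, e2]
      · -- negative side
        have htl : t = -(l : ℤ) - 1 := by
          rw [abs_of_neg ht0] at ht hgt
          push_cast at ht
          omega
        have hj0 : j ≤ 0 := by
          by_contra hcon
          have : c 1 ≤ c j := mc.monotone (by omega)
          omega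
        rcases eq_or_lt_of_le hj0 with hz0 | hneg
        · subst hz0
          have hlet : z.1 (n + 1) 0 = w.1 (n + 1) 0 := h0 (n + 1)
          obtain ⟨i, hi⟩ : ∃ i : ℕ, t = c 0 + i := ⟨(t - c 0).toNat, by omega⟩
          have hil : i < (σ n (z.1 (n + 1) 0)).length := by
            rw [hc.step] at j2
            omega
          have e1 := hc.occ 0 i _ (List.getElem?_eq_getElem hil)
          have e2 := hd.occ 0 i ((σ n (z.1 (n + 1) 0))[i]) (by
            rw [← hlet]; exact List.getElem?_eq_getElem hil)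
          rw [hi, e1, show c 0 = d 0 by omega, e2]
        · have g3 := g2 (j + 1) (by omega)
          obtain ⟨k, hk⟩ : ∃ k : ℕ, j + 1 = -(k : ℤ) := ⟨(-(j + 1)).toNat, by omega⟩
          have hkl : k ≤ l := by omega
          have hck := down k hkl
          rw [← hk] at hck
          rcases eq_or_lt_of_le (show t ≤ c (j + 1) - 1 by omega) with he | hl
          · rw [he, ((hσ n).mem_cut hc j).2.2.2.2, hck, ((hσ n).mem_cut hd j).2.2.2.2]
          · have hkl2 : k + 1 ≤ l := by omega
            have hj : j = -((k + 1 : ℕ) : ℤ) := by push_cast; omega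
            have hcj := down (k + 1) hkl2
            rw [← hj] at hcj
            have hlet : z.1 (n + 1) j = w.1 (n + 1) j := ih (n + 1) j (by
              rw [abs_of_neg hneg]; omega)
            obtain ⟨i, hi⟩ : ∃ i : ℕ, t = c j + i := ⟨(t - c j).toNat, by omega⟩
            have hil : i < (σ n (z.1 (n + 1) j)).length := by
              rw [hc.step] at j2
              omega
            have e1 := hc.occ j i _ (List.getElem?_eq_getElem hil)
            have e2 := hd.occ j i ((σ n (z.1 (n + 1) j))[i]) (by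
              rw [← hlet]; exact List.getElem?_eq_getElem hil)
            rw [hi, e1, hcj, e2]
  apply Prod.ext
  · funext n t
    exact key t.natAbs n t (by rw [Int.abs_eq_natAbs])
  · exact h1

/-- Every path is realized. -/
theorem ZZ_exists (hσ : ∀ n, Mark (σ n)) (v : ℕ → Bool) (κ : ℕ → ℕ)
    (h : ∀ n, (σ n (v (n + 1)))[κ n]? = some (v n)) :
    ∃ z ∈ ZZ σ, (∀ n, z.1 n 0 = v n) ∧ z.2 = κ := by
  have fin : ∀ d n, ∃ Z : ℕ → ℤ → Bool, (∀ m, Z m 0 = v (n + m)) ∧
      ∀ m < d, Dsb (σ (n + m)) (Z m) (Z (m + 1)) (κ (n + m)) := by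
    intro d
    induction d with
    | zero =>
      intro n
      exact ⟨fun m _ => v (n + m), fun m => rfl, fun m hm => absurd hm (Nat.not_lt_zero m)⟩
    | succ d ih =>
      intro n
      obtain ⟨Z', hZ1, hZ2⟩ := ih (n + 1)
      obtain ⟨y, c, hc0, hc⟩ := exists_cut (σ n) (hσ n).length_pos (Z' 0) (-(κ n : ℤ))
      have hd : Dsb (σ n) y (Z' 0) (κ n) := by
        refine ⟨?_, c, hc0, hc⟩
        obtain ⟨hlt, -⟩ := List.getElem?_eq_some_iff.1 (h n)
        rw [hZ1 0]
        exact hlt
      refine ⟨fun m => match m with | 0 => y | m + 1 => Z' m, ?_, ?_⟩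
      · intro m
        cases m with
        | zero =>
          have := hd.zero
          rw [hZ1 0] at this
          rw [show n + 1 + 0 = n + 1 by omega, h n] at this
          simpa using this.symm
        | succ m =>
          simp only
          rw [hZ1, show n + 1 + m = n + (m + 1) by omega]
      · intro m hm
        cases m with
        | zero => exact hd
        | succ m =>
          have := hZ2 m (by omega)
          rw [show n + 1 + m = n + (m + 1) by omega] at this
          exact this
  set t : ℕ → Set (ℕ → ℤ → Bool) := fun d =>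
    {Z | (∀ m, Z m 0 = v m) ∧ ∀ m < d, Dsb (σ m) (Z m) (Z (m + 1)) (κ m)} with ht
  have hcl : ∀ d, IsClosed (t d) := by
    intro d
    have h1 : t d = (⋂ m, {Z : ℕ → ℤ → Bool | Z m 0 = v m}) ∩
        ⋂ m, ⋂ (_ : m < d), (fun Z : ℕ → ℤ → Bool => (Z m, Z (m + 1), κ m)) ⁻¹'
          {p : (ℤ → Bool) × (ℤ → Bool) × ℕ | Dsb (σ m) p.1 p.2.1 p.2.2} := by
      ext Z
      simp only [Set.mem_inter_iff, Set.mem_iInter, Set.mem_preimage]
      rfl
    rw [h1]
    apply IsClosed.inter
    · apply isClosed_iInter
      intro m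
      have hf : Continuous fun Z : ℕ → ℤ → Bool => Z m 0 :=
        (continuous_apply 0).comp (continuous_apply m)
      exact (isClosed_discrete {v m}).preimage hf
    · apply isClosed_iInter
      intro m
      apply isClosed_iInter
      intro _
      apply (isClosed_dsb (σ m)).preimage
      exact (continuous_apply m).prodMk ((continuous_apply (m + 1)).prodMk continuous_const)
  have hne : (⋂ d, t d).Nonempty := by
    apply IsCompact.nonempty_iInter_of_sequence_nonempty_isCompact_isClosed
    · intro d Z hZ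
      exact ⟨hZ.1, fun m hm => hZ.2 m (by omega)⟩
    · intro d
      obtain ⟨Z, h1, h2⟩ := fin d 0
      simp only [zero_add] at h1 h2
      exact ⟨Z, h1, h2⟩
    · exact (hcl 0).isCompact
    · exact hcl
  obtain ⟨Z, hZ⟩ := hne
  rw [Set.mem_iInter] at hZ
  refine ⟨(Z, κ), ?_, (hZ 0).1, rfl⟩
  intro n
  exact (hZ (n + 1)).2 n (by omega)

/-- The shift on compatible families. -/
theorem ZZ_next (hσ : ∀ n, Mark (σ n)) {z : (ℕ → ℤ → Bool) × (ℕ → ℕ)} (hz : z ∈ ZZ σ) :
    ∃ w ∈ ZZ σ, w.1 0 = shiftZ 1 (z.1 0) ∧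
      ((∀ n, z.2 n + 1 = (σ n (z.1 (n + 1) 0)).length) → ∀ n, w.2 n = 0) ∧
      ∀ n, (∀ m < n, z.2 m + 1 = (σ m (z.1 (m + 1) 0)).length) →
        z.2 n + 1 ≠ (σ n (z.1 (n + 1) 0)).length →
        (∀ m < n, w.2 m = 0) ∧ w.2 n = z.2 n + 1 ∧ (∀ m > n, w.1 m = z.1 m) ∧
          ∀ m > n, w.2 m = z.2 m := by
  classical
  set carry : ℕ → Prop := fun n => ∀ m < n, z.2 m + 1 = (σ m (z.1 (m + 1) 0)).length with hcarry
  refine ⟨(fun n => if carry n then shiftZ 1 (z.1 n) else z.1 n, fun n => if carry n then
    (if z.2 n + 1 = (σ n (z.1 (n + 1) 0)).length then 0 else z.2 n + 1) else z.2 n),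
    ?_, ?_, ?_, ?_⟩
  · intro n
    have hzn := hz n
    by_cases hc : carry n
    · by_cases hm : z.2 n + 1 = (σ n (z.1 (n + 1) 0)).length
      · have hc' : carry (n + 1) := by
          intro m hmn
          rcases Nat.lt_succ_iff_lt_or_eq.1 hmn with h | h
          · exact hc m h
          · rw [h]; exact hm
        simp only [hc, hc', hm, if_true]
        exact hzn.shift.2 hm (hσ n).length_pos
      · have hc' : ¬ carry (n + 1) := by
          intro hcon
          exact hm (hcon n (by omega))
        simp only [hc, hc', hm, if_true, if_false]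
        apply hzn.shift.1
        have := hzn.1
        omega
    · have hc' : ¬ carry (n + 1) := by
        intro hcon
        exact hc fun m hm => hcon m (by omega)
      simp only [hc, hc', if_false]
      exact hzn
  · have : carry 0 := fun m hm => absurd hm (Nat.not_lt_zero m)
    simp only [this, if_true]
  · intro hall n
    have : carry n := fun m _ => hall m
    simp only [this, if_true, hall n]
  · intro n hn hne
    have hc : carry n := hn
    have hc' : ∀ m > n, ¬ carry m := by
      intro m hm hcon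
      exact hne (hcon n hm)
    refine ⟨?_, ?_, ?_, ?_⟩
    · intro m hm
      have h1 : carry m := fun k hk => hn k (by omega)
      simp only [h1, if_true, hn m hm]
    · simp only [hc, if_true, hne, if_false]
    · intro m hm
      simp only [hc' m hm, if_false]
    · intro m hm
      simp only [hc' m hm, if_false]

end

end Pool.Agent.T2H77.Toe
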