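import Pool.Agent.T2H77.Toe.Defs

/-!
# Proximal points in strong Toeplitz subshifts

A strong Toeplitz subshift of rank `R` does not contain `R + 1` different points that are pairwise
proximal.
-/

namespace Pool.Agent.T2H77.Toe

open OBD

/-- Two sequences are proximal: there are arbitrarily long windows on which they agree. -/
def Prox {A : Type} (x y : ℤ → A) : Prop :=
  ∀ l : ℕ, ∃ k : ℤ, ∀ i : ℤ, |i| ≤ l → x (i + k) = y (i + k)

namespace OBD

variable (B : OBD)

theorem nonemptyV (n : ℕ) : Nonempty (B.V n) := by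
  induction n with
  | zero => exact B.topV.1
  | succ n ih =>
    obtain ⟨w⟩ := ih
    obtain ⟨v, _⟩ := B.out n w
    exact ⟨v⟩

theorem paths_pos (n : ℕ) (v : B.V n) : 0 < B.paths n v := by
  induction n with
  | zero => simp [paths]
  | succ n ih =>
    rw [paths]
    have : Nonempty (Fin (B.deg n v)) := ⟨⟨0, B.deg_pos n v⟩⟩
    exact Finset.sum_pos (fun i _ => ih _) Finset.univ_nonempty

theorem exists_const_deg (h : B.EqualPathNumber) :
    ∃ D : ℕ → ℕ, (∀ n, 0 < D n) ∧ ∀ n (v : B.V (n + 1)), B.deg n v = D n := by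
  have hc : ∀ n, ∃ p, 0 < p ∧ ∀ v : B.V n, B.paths n v = p := by
    intro n
    obtain ⟨v0⟩ := B.nonemptyV n
    refine ⟨B.paths n v0, B.paths_pos n v0, ?_⟩
    intro v
    cases n with
    | zero => simp [paths]
    | succ n => exact h n v v0
  have hd : ∀ n, ∃ d, 0 < d ∧ ∀ v : B.V (n + 1), B.deg n v = d := by
    intro n
    obtain ⟨v0⟩ := B.nonemptyV (n + 1)
    obtain ⟨p, hp, hpv⟩ := hc n
    refine ⟨B.deg n v0, B.deg_pos n v0, ?_⟩
    intro v
    have h1 : ∀ w : B.V (n + 1), B.paths (n + 1) w = B.deg n w * p := by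
      intro w
      rw [paths]
      simp [hpv]
    have h2 := h n v v0
    rw [h1, h1] at h2
    exact Nat.eq_of_mul_eq_mul_right hp h2
  choose D hD1 hD2 using hd
  exact ⟨D, hD1, hD2⟩

end OBD

/-- The position of a path up to level `n`. -/
def pos (D : ℕ → ℕ) {B : OBD} (ξ : B.Path) (n : ℕ) : ℕ :=
  ∑ m ∈ Finset.range n, (ξ.1 m).2.val * ∏ i ∈ Finset.range m, D i

theorem pos_succ (D : ℕ → ℕ) {B : OBD} (ξ : B.Path) (n : ℕ) :
    pos D ξ (n + 1) = pos D ξ n + (ξ.1 n).2.val * ∏ i ∈ Finset.range n, D i := by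
  rw [pos, Finset.sum_range_succ, ← pos]

theorem pos_lt (D : ℕ → ℕ) {B : OBD}
    (hD : ∀ n (v : B.V (n + 1)), B.deg n v = D n) (ξ : B.Path) (n : ℕ) :
    pos D ξ n < ∏ i ∈ Finset.range n, D i := by
  induction n with
  | zero => simp [pos]
  | succ n ih =>
    rw [pos_succ, Finset.prod_range_succ]
    have h1 : (ξ.1 n).2.val < D n := lt_of_lt_of_eq (ξ.1 n).2.isLt (hD n _)
    have h2 : (ξ.1 n).2.val + 1 ≤ D n := h1
    calc pos D ξ n + (ξ.1 n).2.val * ∏ i ∈ Finset.range n, D i
        < ∏ i ∈ Finset.range n, D i + (ξ.1 n).2.val * ∏ i ∈ Finset.range n, D i := by omega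
      _ = (∏ i ∈ Finset.range n, D i) * ((ξ.1 n).2.val + 1) := by ring
      _ ≤ (∏ i ∈ Finset.range n, D i) * D n := Nat.mul_le_mul_left _ h2

theorem succ_min {B : OBD} {ξ η : B.Path} (h : B.Succ ξ η) (n : ℕ)
    (hm : ∀ m < n, EdgeMax (ξ.1 m)) : ∀ m < n, EdgeMin (η.1 m) := by
  classical
  by_cases hall : ∀ m, EdgeMax (ξ.1 m)
  · intro m _
    exact h.1 hall m
  · push Not at hall
    have hs := Nat.find_spec hall
    have hmin : ∀ m < Nat.find hall, EdgeMax (ξ.1 m) := by
      intro m hm'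
      by_contra hc
      exact Nat.find_min hall hm' hc
    have hle : n ≤ Nat.find hall := by
      by_contra hc
      push Not at hc
      exact hs (hm _ hc)
    obtain ⟨h1, -, -, -⟩ := h.2 _ hmin hs
    intro m hm'
    exact h1 m (lt_of_lt_of_le hm' hle)

theorem pos_step (D : ℕ → ℕ) {B : OBD}
    (hD : ∀ n (v : B.V (n + 1)), B.deg n v = D n) {ξ η : B.Path} (h : B.Succ ξ η) (n : ℕ) :
    ((∀ m < n, EdgeMax (ξ.1 m)) → pos D ξ n + 1 = ∏ i ∈ Finset.range n, D i ∧ pos D η n = 0) ∧
    ((¬ ∀ m < n, EdgeMax (ξ.1 m)) → pos D η n = pos D ξ n + 1) := by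
  classical
  induction n with
  | zero =>
    refine ⟨fun _ => by simp [pos], fun h0 => absurd ?_ h0⟩
    intro m hm
    omega
  | succ n ih =>
    obtain ⟨ih1, ih2⟩ := ih
    refine ⟨?_, ?_⟩
    · intro hm
      have hm' : ∀ m < n, EdgeMax (ξ.1 m) := fun m hmn => hm m (by omega)
      obtain ⟨e1, e2⟩ := ih1 hm'
      have hmax := hm n (by omega)
      have hmax2 : (ξ.1 n).2.val + 1 = D n := hmax.trans (hD n _)
      have hmin := succ_min h (n + 1) hm n (by omega)
      unfold EdgeMin at hmin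
      refine ⟨?_, ?_⟩
      · rw [pos_succ, Finset.prod_range_succ, ← e1, ← hmax2]
        ring
      · rw [pos_succ, e2, hmin]
        simp
    · intro hm
      by_cases hm' : ∀ m < n, EdgeMax (ξ.1 m)
      · have hmax : ¬ EdgeMax (ξ.1 n) := by
          intro hc
          apply hm
          intro m hmn
          rcases Nat.lt_succ_iff_lt_or_eq.1 hmn with h1 | h1
          · exact hm' m h1
          · rw [h1]; exact hc
        obtain ⟨e1, e2⟩ := ih1 hm'
        obtain ⟨-, -, e3, -⟩ := h.2 n hm' hmax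
        rw [pos_succ, pos_succ, e2, e3, ← e1]
        ring
      · have e2 := ih2 hm'
        have hne : ∃ m, ¬ EdgeMax (ξ.1 m) := by
          push Not at hm'
          obtain ⟨m, _, hm2⟩ := hm'
          exact ⟨m, hm2⟩
        have hs := Nat.find_spec hne
        have hmin : ∀ m < Nat.find hne, EdgeMax (ξ.1 m) := by
          intro m hm'
          by_contra hc
          exact Nat.find_min hne hm' hc
        have hlt : Nat.find hne < n := by
          push Not at hm'
          obtain ⟨m, hm1, hm2⟩ := hm'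
          exact lt_of_le_of_lt (Nat.find_min' hne hm2) hm1
        obtain ⟨-, -, -, e3⟩ := h.2 _ hmin hs
        have e4 := e3 n hlt
        rw [pos_succ, pos_succ, e2, e4]
        ring

theorem pos_step_zmod (D : ℕ → ℕ) {B : OBD}
    (hD : ∀ n (v : B.V (n + 1)), B.deg n v = D n) {ξ η : B.Path} (h : B.Succ ξ η) (n : ℕ) :
    (pos D η n : ZMod (∏ i ∈ Finset.range n, D i)) = pos D ξ n + 1 := by
  obtain ⟨h1, h2⟩ := pos_step D hD h n
  by_cases hm : ∀ m < n, EdgeMax (ξ.1 m)
  · obtain ⟨e1, e2⟩ := h1 hm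
    rw [e2]
    have : ((pos D ξ n + 1 : ℕ) : ZMod (∏ i ∈ Finset.range n, D i)) = 0 := by
      rw [e1]; exact ZMod.natCast_self _
    push_cast at this ⊢
    exact this.symm
  · rw [h2 hm]
    push_cast
    rfl

theorem digit_eq_of_pos (D : ℕ → ℕ) {B : OBD} (hD0 : ∀ n, 0 < D n) {ξ η : B.Path}
    (h : ∀ n, pos D ξ n = pos D η n) (n : ℕ) : (ξ.1 n).2.val = (η.1 n).2.val := by
  have h1 := h (n + 1)
  rw [pos_succ, pos_succ, h n] at h1
  have h2 := Nat.add_left_cancel h1
  have h3 : 0 < ∏ i ∈ Finset.range n, D i := Finset.prod_pos fun i _ => hD0 i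
  exact Nat.eq_of_mul_eq_mul_right h3 h2

theorem edge_ext {B : OBD} {n : ℕ} {e f : B.E n} (h1 : e.1 = f.1) (h2 : e.2.val = f.2.val) :
    e = f := by
  obtain ⟨v, i⟩ := e
  obtain ⟨w, j⟩ := f
  simp only at h1 h2
  subst h1
  have : i = j := Fin.ext h2
  rw [this]

theorem path_eq_below {B : OBD} {ξ η : B.Path} (hd : ∀ n, (ξ.1 n).2.val = (η.1 n).2.val) (M : ℕ)
    (hM : (ξ.1 M).1 = (η.1 M).1) : ∀ m ≤ M, ξ.1 m = η.1 m := by
  induction M with
  | zero =>
    intro m hm
    obtain rfl : m = 0 := by omega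
    exact edge_ext hM (hd 0)
  | succ M ih =>
    have hM1 : ξ.1 (M + 1) = η.1 (M + 1) := edge_ext hM (hd _)
    intro m hm
    rcases Nat.lt_or_ge m (M + 1) with h1 | h1
    · apply ih _ m (by omega)
      rw [← ξ.2 M, ← η.2 M, hM1]
    · obtain rfl : m = M + 1 := by omega
      exact hM1

/-- A continuous function on a compact set of sequences with values in a discrete space depends on
a finite window only. -/
theorem exists_window {A D : Type} [TopologicalSpace A] [DiscreteTopology A] [TopologicalSpace D]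
    [DiscreteTopology D] {X : Set (ℤ → A)} (hX : IsCompact X) (F : X → D) (hF : Continuous F) :
    ∃ l : ℕ, ∀ x y : X, (∀ i : ℤ, |i| ≤ l → x.1 i = y.1 i) → F x = F y := by
  classical
  have hloc : ∀ x : X, ∃ l : ℕ, ∀ y : X, (∀ i : ℤ, |i| ≤ l → x.1 i = y.1 i) → F y = F x := by
    intro x
    have h1 : IsOpen (F ⁻¹' {F x}) := (isOpen_discrete _).preimage hF
    obtain ⟨U, hU, hUF⟩ := isOpen_induced_iff.1 h1
    have hxU : x.1 ∈ U := by
      have : x ∈ F ⁻¹' {F x} := rfl
      rw [← hUF] at this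
      exact this
    obtain ⟨I, u, hu, hsub⟩ := isOpen_pi_iff.1 hU x.1 hxU
    refine ⟨∑ i ∈ I, i.natAbs, ?_⟩
    intro y hy
    have hyU : y.1 ∈ U := by
      apply hsub
      intro i hi
      rw [← hy i]
      · exact (hu i hi).2
      · have : i.natAbs ≤ ∑ i ∈ I, i.natAbs :=
          Finset.single_le_sum (f := fun i : ℤ => i.natAbs) (fun _ _ => Nat.zero_le _) hi
        rw [Int.abs_eq_natAbs]
        exact_mod_cast this
    have : y ∈ F ⁻¹' {F x} := by
      rw [← hUF]; exact hyU
    exact this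
  choose l hl using hloc
  have : CompactSpace X := isCompact_iff_compactSpace.1 hX
  have hopen : ∀ x : X, IsOpen {y : X | ∀ i : ℤ, |i| ≤ l x → x.1 i = y.1 i} := by
    intro x
    have : {y : X | ∀ i : ℤ, |i| ≤ l x → x.1 i = y.1 i} =
        ⋂ i ∈ Finset.Icc (-(l x : ℤ)) (l x), {y : X | y.1 i = x.1 i} := by
      ext y
      simp only [Set.mem_ofPred_eq, Set.mem_iInter, Finset.mem_Icc]
      constructor
      · intro h i hi
        exact (h i (abs_le.2 hi)).symm
      · intro h i hi
        exact (h i (abs_le.1 hi)).symm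
    rw [this]
    apply isOpen_biInter_finset
    intro i _
    have hc : Continuous fun y : X => y.1 i := (continuous_apply i).comp continuous_subtype_val
    exact (isOpen_discrete {x.1 i}).preimage hc
  obtain ⟨t, ht⟩ := isCompact_univ.elim_finite_subcover _ hopen (by
    intro x _
    refine Set.mem_iUnion.2 ⟨x, ?_⟩
    intro i _
    rfl)
  refine ⟨∑ x ∈ t, l x, ?_⟩
  intro x y hxy
  have hx := ht (Set.mem_univ x)
  simp only [Set.mem_iUnion] at hx
  obtain ⟨z, hz, hxz⟩ := hx
  have hle : l z ≤ ∑ x ∈ t, l x := Finset.single_le_sum (f := l) (fun _ _ => Nat.zero_le _) hz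
  rw [hl z x hxz, hl z y]
  intro i hi
  rw [hxz i hi]
  apply hxy i
  refine le_trans hi ?_
  exact_mod_cast hle

/-- A strong Toeplitz subshift of rank `R` has no `R + 1` different pairwise proximal points. -/
theorem no_proximal {A : Type} [TopologicalSpace A] [DiscreteTopology A] {X : Set (ℤ → A)}
    (hX : IsCompact X) (hS : ∀ x ∈ X, ∀ k : ℤ, shiftZ k x ∈ X) {B : OBD}
    (hB : B.EqualPathNumber) {R : ℕ} (hR : ∀ n, Nat.card (B.V (n + 1)) ≤ R) (hc : Conj X B)
    (pts : Fin (R + 1) → X) (hinj : Function.Injective pts)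
    (hprox : ∀ i j, Prox (pts i).1 (pts j).1) : False := by
  classical
  obtain ⟨φ, hφ⟩ := hc
  obtain ⟨D, hD0, hD⟩ := B.exists_const_deg hB
  -- the position modulo the product of the degrees is carried along by the shift
  set P : ℕ → ℕ := fun n => ∏ i ∈ Finset.range n, D i with hP
  have hstep : ∀ n (x : X), (pos D (φ ⟨shiftZ 1 x.1, hS x.1 x.2 1⟩) n : ZMod (P n)) =
      pos D (φ x) n + 1 := by
    intro n x
    exact pos_step_zmod D hD (hφ x ⟨shiftZ 1 x.1, hS x.1 x.2 1⟩ rfl) n
  have hstepZ : ∀ n (k : ℤ) (x : X), (pos D (φ ⟨shiftZ k x.1, hS x.1 x.2 k⟩) n : ZMod (P n)) =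
      pos D (φ x) n + k := by
    intro n k
    induction k using Int.induction_on with
    | zero =>
      intro x
      have : (⟨shiftZ 0 x.1, hS x.1 x.2 0⟩ : X) = x := by
        apply Subtype.ext
        funext i
        simp [shiftZ]
      rw [this]
      simp
    | succ k ih =>
      intro x
      have h1 := hstep n ⟨shiftZ k x.1, hS x.1 x.2 k⟩
      have h2 : (⟨shiftZ 1 (shiftZ k x.1), hS _ (hS x.1 x.2 k) 1⟩ : X) =
          ⟨shiftZ (k + 1) x.1, hS x.1 x.2 (k + 1)⟩ := by
        apply Subtype.ext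
        funext i
        change x.1 _ = x.1 _
        ring_nf
      rw [h2, ih x] at h1
      rw [h1]
      push_cast
      ring
    | pred k ih =>
      intro x
      have h1 := hstep n ⟨shiftZ (-(k : ℤ) - 1) x.1, hS x.1 x.2 _⟩
      have h2 : (⟨shiftZ 1 (shiftZ (-(k : ℤ) - 1) x.1), hS _ (hS x.1 x.2 _) 1⟩ : X) =
          ⟨shiftZ (-(k : ℤ)) x.1, hS x.1 x.2 _⟩ := by
        apply Subtype.ext
        funext i
        change x.1 _ = x.1 _
        ring_nf
      rw [h2, ih x] at h1
      push_cast at h1 ⊢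
      linear_combination -h1
  have hposeq : ∀ n i j, pos D (φ (pts i)) n = pos D (φ (pts j)) n := by
    intro n i j
    -- window for the first `n` edges
    have hcont : ∀ m, Continuous fun x : X => (φ x).1 m := by
      intro m
      exact (continuous_apply m).comp (continuous_subtype_val.comp φ.continuous)
    have hcontn : Continuous fun x : X => (fun m : Fin n => (φ x).1 m : ∀ m : Fin n, B.E m) := by
      apply continuous_pi
      intro m
      exact hcont m
    obtain ⟨l, hl⟩ := exists_window hX _ hcontn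
    obtain ⟨k, hk⟩ := hprox i j l
    have h1 := hl ⟨shiftZ k (pts i).1, hS _ (pts i).2 k⟩ ⟨shiftZ k (pts j).1, hS _ (pts j).2 k⟩
      (by
        intro i' hi'
        exact hk i' hi')
    have h2 : pos D (φ ⟨shiftZ k (pts i).1, hS _ (pts i).2 k⟩) n =
        pos D (φ ⟨shiftZ k (pts j).1, hS _ (pts j).2 k⟩) n := by
      unfold pos
      apply Finset.sum_congr rfl
      intro m hm
      have := congrFun h1 ⟨m, Finset.mem_range.1 hm⟩
      simp only at this
      rw [this]
    have h3 : (pos D (φ (pts i)) n : ZMod (P n)) + k = pos D (φ (pts j)) n + k := by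
      rw [← hstepZ, ← hstepZ, h2]
    have h4 : (pos D (φ (pts i)) n : ZMod (P n)) = pos D (φ (pts j)) n := by
      exact add_right_cancel h3
    rw [ZMod.natCast_eq_natCast_iff'] at h4
    rw [Nat.mod_eq_of_lt (pos_lt D hD _ n), Nat.mod_eq_of_lt (pos_lt D hD _ n)] at h4
    exact h4
  have hdig : ∀ i j n, ((φ (pts i)).1 n).2.val = ((φ (pts j)).1 n).2.val := by
    intro i j n
    exact digit_eq_of_pos D hD0 (fun n => hposeq n i j) n
  have hdiff : ∀ i j, i ≠ j → ∃ m, (φ (pts i)).1 m ≠ (φ (pts j)).1 m := by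
    intro i j hij
    by_contra hcon
    push Not at hcon
    apply hij
    apply hinj
    apply φ.injective
    apply Subtype.ext
    funext m
    exact hcon m
  choose! m hm using hdiff
  set M := ∑ i, ∑ j, m i j with hMdef
  have hMle : ∀ i j, m i j ≤ M := by
    intro i j
    calc m i j ≤ ∑ j, m i j :=
          Finset.single_le_sum (f := fun j => m i j) (fun _ _ => Nat.zero_le _) (Finset.mem_univ j)
      _ ≤ M := Finset.single_le_sum (f := fun i => ∑ j, m i j) (fun _ _ => Nat.zero_le _)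
          (Finset.mem_univ i)
  have hinjV : Function.Injective fun i : Fin (R + 1) => ((φ (pts i)).1 M).1 := by
    intro i j hij
    by_contra hne
    exact hm i j hne (path_eq_below (hdig i j) M hij _ (hMle i j))
  have := B.finV (M + 1)
  have hcard := Nat.card_le_card_of_injective _ hinjV
  rw [Nat.card_eq_fintype_card, Fintype.card_fin] at hcard
  have := hR M
  omega

end Pool.Agent.T2H77.Toe
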